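import Pool.Agent.L5lead.NC.Defs
import Pool.Agent.L5helper67.DC.Points
import Pool.Agent.L5helper67.DC.Limits

/-!
NEARLY CUBIC, part C3: `F_t` is a permanent up to a constant.
-/

namespace L5helper67.NC

open Finset MvPolynomial L5helper59.DC L5lead.NC L5helper67.DC

set_option linter.unusedSectionVars false

/-- the statement of the gadget -/
def GadgetStmt : Prop :=
  ∀ {ι ρ γ H : Type} [Fintype ρ] [Fintype γ] [Fintype H] [DecidableEq ρ]
    [DecidableEq γ] [DecidableEq H] (r m : ℕ) (_ : 1 ≤ r) (a : H → ρ → ℂ)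
    (c : H → γ → ℂ) (_ : ∀ h i, a h i ≠ 0) (_ : ∀ h j, c h j ≠ 0)
    (_ : m = Fintype.card ρ + Fintype.card γ + (r + Fintype.card H *
      (2 * Fintype.card γ + 2 * Fintype.card ρ + 2)))
    (Y : ρ → γ → MvPolynomial (Option ι) ℂ) (_ : ∀ i j, (Y i j).totalDegree ≤ 1),
    ∃ (M : Matrix (Fin m) (Fin m) (MvPolynomial (Option ι) ℂ)) (K K' : ℂ), K ≠ 0 ∧ K' ≠ 0 ∧
      (∀ x y, (M x y).totalDegree ≤ 1) ∧
      M.permanent = C K' * X none + C K * ∑ b : H → Bool,
        sig r (fun i j => C (∏ h, if b h then a h i * c h j else 1) * Y i j)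

theorem totalDegree_C_mul_X_le {ι : Type} (z : ℂ) (v : ι) :
    (C z * X v : MvPolynomial ι ℂ).totalDegree ≤ 1 := by
  refine (totalDegree_mul _ _).trans ?_
  rw [totalDegree_C, totalDegree_X]

theorem totalDegree_C_mul_le {ι : Type} (z : ℂ) (P : MvPolynomial ι ℂ) :
    (C z * P : MvPolynomial ι ℂ).totalDegree ≤ P.totalDegree := by
  refine (totalDegree_mul _ _).trans ?_
  rw [totalDegree_C, zero_add]

theorem permanent_map' {R S : Type*} [CommRing R] [CommRing S] {n : Type*} [Fintype n]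
    [DecidableEq n] (φ : R →+* S) (M : Matrix n n R) :
    φ M.permanent = (M.map φ).permanent := by
  unfold Matrix.permanent
  rw [map_sum]
  refine sum_congr rfl fun σ _ => ?_
  rw [map_prod]
  rfl

section

variable (B D : ℕ)

theorem Ym_degree (i : Rw B D) (j : Cl B D) : (Ym B D i j).totalDegree ≤ 1 := by
  unfold Ym
  refine totalDegree_finsetSum_le fun l _ => ?_
  split_ifs
  · rw [totalDegree_X]
  · rw [totalDegree_zero]
    omega

/-- the substitution which scales `x_0` -/
noncomputable def scl {V : Type} (z : ℂ) : Option V → MvPolynomial (Option V) ℂ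
  | none => C z * X none
  | some v => X (some v)

theorem scl_degree {V : Type} (z : ℂ) (o : Option V) : (scl z o).totalDegree ≤ 1 := by
  cases o with
  | none => exact totalDegree_C_mul_X_le z none
  | some v => exact (totalDegree_X (R := ℂ) (some v)).le

theorem scl_Ym (z : ℂ) (i : Rw B D) (j : Cl B D) :
    aeval (scl z) (Ym B D i j) = Ym B D i j := by
  unfold Ym
  rw [map_sum]
  refine sum_congr rfl fun l _ => ?_
  split_ifs
  · rw [aeval_X]
    rfl
  · rw [map_zero]

theorem exponents (t : ℂ) (ht : t ≠ 0) (b : Ly B D → Bool) (i : Rw B D) (j : Cl B D) :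
    (∏ h, if b h then (t ^ pe B D h i)⁻¹ * t ^ qe B D h j else 1) *
      t ^ (∑ h, (pe B D h i - qe B D h j)) = t ^ ge B D b i j := by
  unfold ge
  rw [← prod_pow_eq_pow_sum, ← prod_pow_eq_pow_sum, ← prod_mul_distrib]
  refine prod_congr rfl fun h _ => ?_
  split_ifs
  · have h1 : qe B D h j + (pe B D h i - qe B D h j) = pe B D h i + (qe B D h j - pe B D h i) := by
      omega
    rw [mul_assoc, ← pow_add, h1, pow_add, inv_mul_cancel_left₀ (pow_ne_zero _ ht)]
  · rw [one_mul]

/-- C3 from the gadget -/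
theorem Ft_perm_of (hG : @GadgetStmt) (r m : ℕ) (hr : 1 ≤ r) (t : ℂ) (ht : t ≠ 0)
    (hm : m = Fintype.card (Rw B D) + Fintype.card (Cl B D) + (r + Fintype.card (Ly B D) *
      (2 * Fintype.card (Cl B D) + 2 * Fintype.card (Rw B D) + 2))) :
    ∃ (M : Matrix (Fin m) (Fin m) (MvPolynomial (Option (Rw B D × Rw B D)) ℂ)) (K : ℂ), K ≠ 0 ∧
      (∀ x y, (M x y).totalDegree ≤ 1) ∧ M.permanent = C K * Ft B D r t := by
  classical
  obtain ⟨M, K, K', hK, hK', hM, hp⟩ := hG (ι := Rw B D × Rw B D) (ρ := Rw B D) (γ := Cl B D)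
    (H := Ly B D) r m hr (fun h i => (t ^ pe B D h i)⁻¹) (fun h j => t ^ qe B D h j)
    (fun h i => inv_ne_zero (pow_ne_zero _ ht)) (fun h j => pow_ne_zero _ ht) hm
    (fun i j => C (t ^ (∑ h, (pe B D h i - qe B D h j))) * Ym B D i j)
    (fun i j => (totalDegree_C_mul_le _ _).trans (Ym_degree B D i j))
  let θ : MvPolynomial (Option (Rw B D × Rw B D)) ℂ →+*
    MvPolynomial (Option (Rw B D × Rw B D)) ℂ := (aeval (scl (K / K'))).toRingHom
  refine ⟨M.map θ, K, hK, fun x y => ?_, ?_⟩
  · rw [Matrix.map_apply]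
    exact (totalDegree_aeval_le _ (fun o => scl_degree _ o) (M x y)).trans (hM x y)
  · rw [← permanent_map', hp, map_add, map_mul, map_mul, map_sum]
    have e1 : θ (X none : MvPolynomial (Option (Rw B D × Rw B D)) ℂ) =
        C (K / K') * X none := by
      change aeval (scl (K / K')) (X none) = _
      rw [aeval_X]
      rfl
    have eC : ∀ z : ℂ, θ (C z : MvPolynomial (Option (Rw B D × Rw B D)) ℂ) = C z := by
      intro z
      change aeval (scl (K / K')) (C z) = _
      rw [aeval_C]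
      rfl
    rw [e1, eC, eC, ← mul_assoc, ← C_mul, mul_div_cancel₀ _ hK']
    unfold Ft
    rw [mul_add]
    congr 2
    refine sum_congr rfl fun b _ => ?_
    rw [map_sig]
    congr 1
    funext i j
    rw [map_mul, map_mul, eC, eC]
    have e2 : θ (Ym B D i j) = Ym B D i j := scl_Ym B D _ i j
    rw [e2, ← mul_assoc, ← C_mul, exponents B D t ht]

end

end L5helper67.NC
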