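import Pool.Agent.L5lead.NC.Defs
import Pool.Agent.L5helper67.DC.Assembled
import Pool.Agent.L5helper18.DC.Persist
import Pool.Agent.L5helper67.NC.FtPerm

/-!
NEARLY CUBIC, part E: the assembly.
-/

namespace L5helper67.NC

open Finset MvPolynomial L5helper59.DC L5lead.NC L5helper67.DC

set_option linter.unusedSectionVars false

/-- the statement of the part P -/
def EsymmStmt : Prop :=
  ∀ (q : ℕ) [NeZero q],
    ∃ (c : Fin 2 × ZMod q → ℂ) (S : Finset (Fin 2 × ZMod q → ℂ)),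
      S.card = (q.factorial) ^ 2 ∧
      (∀ p ∈ S, ∀ v, eval p (pderiv v (esymm (Fin 2 × ZMod q) ℂ (q + 1))) = c v) ∧
      (∀ p ∈ S, ∀ z : Fin 2 × ZMod q → ℂ,
        (∀ v, ∑ v', z v' * eval p (pderiv v' (pderiv v
          (esymm (Fin 2 × ZMod q) ℂ (q + 1)))) = 0) → z = 0)

theorem aeval_permPoly {ι : Type*} {m : ℕ} (M : Matrix (Fin m) (Fin m) (MvPolynomial ι ℂ)) :
    aeval (fun v : Fin m × Fin m => M v.1 v.2) (permPoly m) = M.permanent := by
  unfold permPoly Matrix.permanent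
  rw [map_sum]
  refine sum_congr rfl fun σ _ => ?_
  rw [map_prod]
  refine prod_congr rfl fun i _ => ?_
  rw [Matrix.of_apply, aeval_X]

/-- the conditions on the points are invariant under scaling -/
theorem scale_conditions {ι κ : Type} [Fintype ι] (G : MvPolynomial ι ℂ) (K : ℂ) (hK : K ≠ 0)
    (w : κ → ι → ℂ) (S : Finset (ι → ℂ)) (h0 : ∀ p ∈ S, eval p G = 0)
    (h1 : ∀ p ∈ S, ∀ e, ∑ i, w e i * eval p (pderiv i G) = 0)
    (hnd : ∀ p ∈ S, ∀ z : ι → ℂ, ∑ i, z i * eval p (pderiv i G) = 0 →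
      (∀ e, ∑ i, ∑ j, z j * w e i * eval p (pderiv j (pderiv i G)) = 0) → z = 0) :
    (∀ p ∈ S, eval p (C K * G) = 0) ∧
    (∀ p ∈ S, ∀ e, ∑ i, w e i * eval p (pderiv i (C K * G)) = 0) ∧
    (∀ p ∈ S, ∀ z : ι → ℂ, ∑ i, z i * eval p (pderiv i (C K * G)) = 0 →
      (∀ e, ∑ i, ∑ j, z j * w e i * eval p (pderiv j (pderiv i (C K * G))) = 0) → z = 0) := by
  refine ⟨fun p hp => ?_, fun p hp e => ?_, fun p hp z hz hz2 => ?_⟩
  · rw [map_mul, h0 p hp, mul_zero]
  · have h2 : ∑ i, w e i * eval p (pderiv i (C K * G)) =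
        K * ∑ i, w e i * eval p (pderiv i G) := by
      rw [mul_sum]
      refine sum_congr rfl fun i _ => ?_
      rw [pderiv_C_mul, map_mul, eval_C]
      ring
    rw [h2, h1 p hp e, mul_zero]
  · apply hnd p hp z
    · have h2 : ∑ i, z i * eval p (pderiv i (C K * G)) =
          K * ∑ i, z i * eval p (pderiv i G) := by
        rw [mul_sum]
        refine sum_congr rfl fun i _ => ?_
        rw [pderiv_C_mul, map_mul, eval_C]
        ring
      rw [h2] at hz
      exact (mul_eq_zero.1 hz).resolve_left hK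
    · intro e
      have h2 : ∑ i, ∑ j, z j * w e i * eval p (pderiv j (pderiv i (C K * G))) =
          K * ∑ i, ∑ j, z j * w e i * eval p (pderiv j (pderiv i G)) := by
        rw [mul_sum]
        refine sum_congr rfl fun i _ => ?_
        rw [mul_sum]
        refine sum_congr rfl fun j _ => ?_
        rw [pderiv_C_mul, pderiv_C_mul, map_mul, eval_C]
        ring
      have h3 := hz2 e
      rw [h2] at h3
      exact (mul_eq_zero.1 h3).resolve_left hK

/-- the target polynomial: a sum of disjoint elementary symmetric polynomials and one variable -/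
noncomputable def target (L V : Type) [Fintype L] [Fintype V] (r : ℕ) :
    MvPolynomial (Option (L × V)) ℂ :=
  X none + ∑ l : L, ∑ I ∈ powersetCard r (univ : Finset V), ∏ i ∈ I, X (some (l, i))

theorem rename_target {L V L' V' : Type} [Fintype L] [Fintype V] [Fintype L'] [Fintype V']
    (e₁ : L ≃ L') (e₂ : V ≃ V') (r : ℕ) :
    rename (Equiv.optionCongr (Equiv.prodCongr e₁ e₂)) (target L V r) = target L' V' r := by
  classical
  unfold target
  rw [map_add, rename_X, map_sum]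
  congr 1
  rw [← Equiv.sum_comp e₁ (fun l => ∑ I ∈ powersetCard r (univ : Finset V'),
    ∏ i ∈ I, (X (some (l, i)) : MvPolynomial (Option (L' × V')) ℂ))]
  refine sum_congr rfl fun l _ => ?_
  rw [map_sum]
  refine sum_bij (fun I _ => I.map e₂.toEmbedding) ?_ ?_ ?_ ?_
  · intro I hI
    rw [mem_powersetCard] at hI ⊢
    exact ⟨subset_univ _, by rw [card_map]; exact hI.2⟩
  · intro I _ J _ h
    exact Finset.map_injective _ h
  · intro J hJ
    rw [mem_powersetCard] at hJ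
    refine ⟨J.map e₂.symm.toEmbedding, ?_, ?_⟩
    · rw [mem_powersetCard]
      exact ⟨subset_univ _, by rw [card_map]; exact hJ.2⟩
    · ext x
      simp
  · intro I _
    rw [map_prod, prod_map]
    refine prod_congr rfl fun i _ => ?_
    rw [rename_X]
    rfl

theorem target_eq_asm (κ : ℕ) (V : Type) [Fintype V] [DecidableEq V] (r : ℕ) :
    target (Fin κ) V r = asm (esymm V ℂ r) (fun _ : Fin κ => (1 : ℂ)) 1 := by
  unfold target asm esymm
  rw [add_comm, C_1, one_mul]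
  congr 1
  refine sum_congr rfl fun l _ => ?_
  change _ = C 1 * _
  rw [C_1, one_mul, map_sum]
  refine sum_congr rfl fun I _ => ?_
  rw [map_prod]
  refine prod_congr rfl fun i _ => ?_
  rw [rename_X]

/-- the assembly for `Fin κ` and `Fin 2 × ZMod q` -/
theorem assembly_fin (hP : @EsymmStmt) (q κ m M : ℕ) [NeZero q]
    (Gk : ℕ → MvPolynomial (Option (Fin κ × (Fin 2 × ZMod q))) ℂ) (Δ : ℕ)
    (hdeg : ∀ k, (Gk k).totalDegree ≤ Δ)
    (hlim : ∀ d, Filter.Tendsto (fun k => coeff d (Gk k)) Filter.atTop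
      (nhds (coeff d (target (Fin κ) (Fin 2 × ZMod q) (q + 1)))))
    (hperm : ∀ k, ∃ (M₀ : Matrix (Fin m) (Fin m)
      (MvPolynomial (Option (Fin κ × (Fin 2 × ZMod q))) ℂ)) (K : ℂ), K ≠ 0 ∧
      (∀ x y, (M₀ x y).totalDegree ≤ 1) ∧ M₀.permanent = C K * Gk k)
    (H : BorderRep m M) (a b : ℕ) (ha : 1 ≤ a) (hb : 1 ≤ b) :
    ((q.factorial) ^ 2) ^ κ * (a ^ (κ * (2 * q) + 1) * b ^ (2 * M)) ≤
      (a + b) ^ (2 * M + 1) * (2 * b) ^ (κ * (2 * q)) := by
  classical
  obtain ⟨c, S, hScard, hS1, hS2⟩ := hP q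
  obtain ⟨T, hTcard, hT0, hT1, hT2⟩ := asm_points (κ := κ)
    (esymm (Fin 2 × ZMod q) ℂ (q + 1)) (fun _ : Fin κ => (1 : ℂ)) 1 (fun _ => one_ne_zero)
    one_ne_zero c S hS1 hS2
  rw [target_eq_asm] at hlim
  have hcard : Fintype.card (Option (Fin κ × (Fin 2 × ZMod q))) =
      Fintype.card (Fin κ × (Fin 2 × ZMod q)) + 1 := Fintype.card_option
  have hcard2 : Fintype.card (Fin κ × (Fin 2 × ZMod q)) = κ * (2 * q) := by
    rw [Fintype.card_prod, Fintype.card_fin, Fintype.card_prod, Fintype.card_fin, ZMod.card]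
  obtain ⟨k, S₁, hS₁card, hS₁0, hS₁1, hS₁2⟩ := Pool.Agent.L5helper18.DC.persist hcard _ Gk Δ hdeg hlim _ T
    hT0 hT1 hT2
  obtain ⟨M₀, K, hK, hM₀, hp⟩ := hperm k
  obtain ⟨h0, h1, h2⟩ := scale_conditions (Gk k) K hK _ S₁ hS₁0 hS₁1 hS₁2
  obtain ⟨A, hA, hAlim⟩ := border_subst H (fun v : Fin m × Fin m => M₀ v.1 v.2)
    (fun v => hM₀ v.1 v.2)
  rw [aeval_permPoly, hp] at hAlim
  obtain ⟨k', S₂, hS₂card, hS₂0, hS₂1, hS₂2⟩ := Pool.Agent.L5helper18.DC.persist hcard _
    (fun k => (A k).det) (M + 1) (fun k => totalDegree_det_le _ (hA k)) hAlim _ S₁ h0 h1 h2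
  have hfin := card_nondeg_le hcard M _ (A k') (hA k') rfl _ S₂ hS₂0 hS₂1 hS₂2 a b ha hb
  rw [hcard, hcard2, hS₂card, hS₁card, hTcard, hScard] at hfin
  exact hfin

/-- **The assembly.** -/
theorem assembly (hP : @EsymmStmt) {L V : Type} [Fintype L] [Fintype V]
    (q m M : ℕ) [NeZero q] (hV : Fintype.card V = 2 * q)
    (Gk : ℕ → MvPolynomial (Option (L × V)) ℂ) (Δ : ℕ)
    (hdeg : ∀ k, (Gk k).totalDegree ≤ Δ)
    (hlim : ∀ d, Filter.Tendsto (fun k => coeff d (Gk k)) Filter.atTop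
      (nhds (coeff d (target L V (q + 1)))))
    (hperm : ∀ k, ∃ (M₀ : Matrix (Fin m) (Fin m) (MvPolynomial (Option (L × V)) ℂ)) (K : ℂ),
      K ≠ 0 ∧ (∀ x y, (M₀ x y).totalDegree ≤ 1) ∧ M₀.permanent = C K * Gk k)
    (H : BorderRep m M) (a b : ℕ) (ha : 1 ≤ a) (hb : 1 ≤ b) :
    ((q.factorial) ^ 2) ^ (Fintype.card L) *
        (a ^ (Fintype.card L * (2 * q) + 1) * b ^ (2 * M)) ≤
      (a + b) ^ (2 * M + 1) * (2 * b) ^ (Fintype.card L * (2 * q)) := by
  classical
  have e₁ : L ≃ Fin (Fintype.card L) := Fintype.equivFin L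
  have hV' : Fintype.card V = Fintype.card (Fin 2 × ZMod q) := by
    rw [hV, Fintype.card_prod, Fintype.card_fin, ZMod.card]
  have e₂ : V ≃ Fin 2 × ZMod q := Fintype.equivOfCardEq hV'
  set E := Equiv.optionCongr (Equiv.prodCongr e₁ e₂) with hE
  refine assembly_fin hP q (Fintype.card L) m M (fun k => rename E (Gk k)) Δ
    (fun k => (totalDegree_rename_le _ _).trans (hdeg k)) ?_ ?_ H a b ha hb
  · intro d
    have h1 : ∀ P : MvPolynomial (Option (L × V)) ℂ,
        coeff d (rename E P) = coeff (d.mapDomain E.symm) P := by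
      intro P
      have h2 : d = (d.mapDomain E.symm).mapDomain E := by
        rw [← Finsupp.mapDomain_comp]
        have : (E ∘ E.symm : _ → _) = id := by
          funext x
          simp
        rw [this, Finsupp.mapDomain_id]
      conv_lhs => rw [h2]
      rw [coeff_rename_mapDomain _ E.injective]
    simp only [h1]
    rw [← rename_target e₁ e₂, ← hE, h1]
    exact hlim _
  · intro k
    obtain ⟨M₀, K, hK, hM₀, hp⟩ := hperm k
    refine ⟨M₀.map (rename E).toRingHom, K, hK, fun x y => ?_, ?_⟩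
    · rw [Matrix.map_apply]
      exact (totalDegree_rename_le _ _).trans (hM₀ x y)
    · rw [← permanent_map', hp, map_mul]
      congr 1
      exact rename_C _ _

section

variable (B D : ℕ)

theorem F0_eq_target (r : ℕ) : F0 B D r = target (Rw B D) (Rw B D) r := rfl

/-- E from the parts -/
theorem main_nat_of (hP : @EsymmStmt) (hG : @GadgetStmt)
    (hC1 : ∀ (B D r : ℕ), 1 ≤ r → Ft B D r 0 = F0 B D r)
    (hC2 : ∀ (B D r : ℕ) (d), Filter.Tendsto
      (fun k : ℕ => coeff d (Ft B D r (1 / ((k : ℂ) + 1)))) Filter.atTop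
      (nhds (coeff d (Ft B D r 0))))
    (hdeg : ∀ (B D r : ℕ) (t : ℂ), (Ft B D r t).totalDegree ≤ r + 1)
    (B D q m M : ℕ) [NeZero q] (hN : B ^ D = 2 * q)
    (hm : m = B ^ D + (2 * B) ^ D + ((q + 1) + D * (B - 1) *
      (2 * (2 * B) ^ D + 2 * B ^ D + 2))) (H : BorderRep m M) (a b : ℕ) (ha : 1 ≤ a)
    (hb : 1 ≤ b) :
    ((q.factorial) ^ 2) ^ (B ^ D) * (a ^ (B ^ D * B ^ D + 1) * b ^ (2 * M)) ≤
      (a + b) ^ (2 * M + 1) * (2 * b) ^ (B ^ D * B ^ D) := by
  have cR : Fintype.card (Rw B D) = B ^ D := by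
    rw [Fintype.card_fun, Fintype.card_fin, Fintype.card_fin]
  have cC : Fintype.card (Cl B D) = (2 * B) ^ D := by
    rw [Fintype.card_fun, Fintype.card_fin, Fintype.card_fin]
  have cL : Fintype.card (Ly B D) = D * (B - 1) := by
    rw [Fintype.card_prod, Fintype.card_fin, Fintype.card_fin]
  have h := assembly hP (L := Rw B D) (V := Rw B D) q m M (by rw [cR, hN])
    (fun k => Ft B D (q + 1) (1 / ((k : ℂ) + 1))) (q + 1 + 1) (fun k => hdeg _ _ _ _)
    (by
      intro d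
      have := hC2 B D (q + 1) d
      rw [hC1 B D (q + 1) (by omega), F0_eq_target] at this
      exact this)
    (by
      intro k
      exact Ft_perm_of B D hG (q + 1) m (by omega) _
        (one_div_ne_zero (Nat.cast_add_one_ne_zero k)) (by rw [cR, cC, cL]; exact hm))
    H a b ha hb
  rw [cR] at h
  rw [← hN] at h
  exact h

end

end L5helper67.NC
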