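import Pool.Agent.L5helper96.NC.Defs2
import Pool.Agent.L5helper67.NC.FtPerm
import Pool.Agent.L5helper67.NC.Assembly

/-!
NEARLY CUBIC, version 2, part C3: `F_t` is a permanent up to a constant; and part E from the
other parts.
-/

namespace L5helper67.NC

open Finset MvPolynomial L5helper59.DC L5lead.NC L5helper67.DC L5helper96.NC

set_option linter.unusedSectionVars false

/-- the statement of `gadget2` -/
def Gadget2Stmt : Prop :=
  ∀ {ι ρ γ : Type} [Fintype ρ] [Fintype γ] [DecidableEq ρ] [DecidableEq γ]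
    (r L m : ℕ) (_ : 1 ≤ r) (a : ρ → ℂ) (c : γ → ℂ) (t : ℂ) (_ : ∀ i, a i ≠ 0)
    (_ : ∀ j, c j ≠ 0) (_ : t ≠ 0) (_ : ∑ z ∈ range (2 ^ L), (t ^ r) ^ (z ^ 2) ≠ 0)
    (_ : m = Fintype.card ρ + Fintype.card γ +
      (r + (L * (2 * Fintype.card γ + 2 * Fintype.card ρ) + 2 * L ^ 2)))
    (Y : ρ → γ → MvPolynomial (Option ι) ℂ) (_ : ∀ i j, (Y i j).totalDegree ≤ 1),
    ∃ (M : Matrix (Fin m) (Fin m) (MvPolynomial (Option ι) ℂ)) (K K' : ℂ), K ≠ 0 ∧ K' ≠ 0 ∧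
      (∀ x y, (M x y).totalDegree ≤ 1) ∧
      M.permanent = C K' * X none + C K * ∑ z ∈ range (2 ^ L),
        sig r (fun i j => C (t ^ (z ^ 2) * (a i * c j) ^ z) * Y i j)

theorem Y2_degree (N : ℕ) (i : Fin N) (j : Fin (2 * N)) : (Y2 N i j).totalDegree ≤ 1 := by
  unfold Y2
  refine totalDegree_finsetSum_le fun l _ => ?_
  split_ifs
  · rw [totalDegree_X]
  · rw [totalDegree_zero]
    omega

theorem scl_Y2 (z : ℂ) (N : ℕ) (i : Fin N) (j : Fin (2 * N)) :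
    aeval (scl z) (Y2 N i j) = Y2 N i j := by
  unfold Y2
  rw [map_sum]
  refine sum_congr rfl fun l _ => ?_
  split_ifs
  · rw [aeval_X]
    rfl
  · rw [map_zero]

theorem exponents2 (t : ℂ) (ht : t ≠ 0) (z i j : ℕ) :
    t ^ (z ^ 2) * (t ^ (2 * i) * t⁻¹ ^ (2 * j)) ^ z * t ^ e2 0 i j = t ^ e2 z i j := by
  have h : ∀ z : ℕ, t ^ e2 z i j = t ^ (((j : ℤ) - i - z) ^ 2) := by
    intro z
    unfold e2
    rw [← Int.natAbs_sq ((j : ℤ) - i - z), ← Nat.cast_pow, zpow_natCast]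
  rw [h z, h 0]
  have h1 : t ^ (z ^ 2) = t ^ ((z : ℤ) ^ 2) := by
    rw [← Nat.cast_pow, zpow_natCast]
  have h2 : (t ^ (2 * i) * t⁻¹ ^ (2 * j)) ^ z = t ^ ((2 * (i : ℤ) - 2 * j) * z) := by
    rw [zpow_mul, zpow_natCast]
    congr 1
    rw [zpow_sub₀ ht, inv_pow, div_eq_mul_inv]
    congr 1
  rw [h1, h2, ← zpow_add₀ ht, ← zpow_add₀ ht]
  congr 1
  push_cast
  ring

/-- C3 from the gadget -/
theorem F2t_perm_of (hG : @Gadget2Stmt) (r L m : ℕ) (hr : 1 ≤ r) (t : ℝ) (ht : 0 < t)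
    (hm : m = size2 L r) :
    ∃ (M : Matrix (Fin m) (Fin m) (MvPolynomial (Option (Fin (2 ^ L) × Fin (2 ^ L))) ℂ))
      (K : ℂ), K ≠ 0 ∧ (∀ x y, (M x y).totalDegree ≤ 1) ∧
      M.permanent = C K * F2t (2 ^ L) r (t : ℂ) := by
  classical
  have ht' : (t : ℂ) ≠ 0 := by exact_mod_cast ht.ne'
  have h0 : ∑ z ∈ range (2 ^ L), ((t : ℂ) ^ r) ^ (z ^ 2) ≠ 0 := by
    have h1 : 0 < ∑ z ∈ range (2 ^ L), (t ^ r) ^ (z ^ 2) := by
      apply sum_pos
      · intro z _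
        positivity
      · rw [nonempty_range_iff]
        positivity
    have h2 : (∑ z ∈ range (2 ^ L), ((t : ℂ) ^ r) ^ (z ^ 2)) =
        ((∑ z ∈ range (2 ^ L), (t ^ r) ^ (z ^ 2) : ℝ) : ℂ) := by
      push_cast
      rfl
    rw [h2]
    exact_mod_cast h1.ne'
  obtain ⟨M, K, K', hK, hK', hM, hp⟩ := hG (ι := Fin (2 ^ L) × Fin (2 ^ L))
    (ρ := Fin (2 ^ L)) (γ := Fin (2 * 2 ^ L)) r L m hr (fun i => (t : ℂ) ^ (2 * (i : ℕ)))
    (fun j => (t : ℂ)⁻¹ ^ (2 * (j : ℕ))) (t : ℂ) (fun i => pow_ne_zero _ ht')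
    (fun j => pow_ne_zero _ (inv_ne_zero ht')) ht' h0
    (by rw [hm, Fintype.card_fin, Fintype.card_fin]; rfl)
    (fun i j => C ((t : ℂ) ^ e2 0 i j) * Y2 (2 ^ L) i j)
    (fun i j => (totalDegree_C_mul_le _ _).trans (Y2_degree _ i j))
  let θ : MvPolynomial (Option (Fin (2 ^ L) × Fin (2 ^ L))) ℂ →+*
    MvPolynomial (Option (Fin (2 ^ L) × Fin (2 ^ L))) ℂ := (aeval (scl (K / K'))).toRingHom
  refine ⟨M.map θ, K, hK, fun x y => ?_, ?_⟩
  · rw [Matrix.map_apply]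
    exact (totalDegree_aeval_le _ (fun o => scl_degree _ o) (M x y)).trans (hM x y)
  · rw [← permanent_map', hp, map_add, map_mul, map_mul, map_sum]
    have e1 : θ (X none : MvPolynomial (Option (Fin (2 ^ L) × Fin (2 ^ L))) ℂ) =
        C (K / K') * X none := by
      change aeval (scl (K / K')) (X none) = _
      rw [aeval_X]
      rfl
    have eC : ∀ z : ℂ,
        θ (C z : MvPolynomial (Option (Fin (2 ^ L) × Fin (2 ^ L))) ℂ) = C z := by
      intro z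
      change aeval (scl (K / K')) (C z) = _
      rw [aeval_C]
      rfl
    rw [e1, eC, eC, ← mul_assoc, ← C_mul, mul_div_cancel₀ _ hK']
    unfold F2t
    rw [mul_add]
    congr 2
    refine sum_congr rfl fun z _ => ?_
    rw [map_sig]
    congr 1
    funext i j
    rw [map_mul θ, map_mul θ (C ((t : ℂ) ^ e2 0 i j)), eC, eC]
    have e2' : θ (Y2 (2 ^ L) i j) = Y2 (2 ^ L) i j := scl_Y2 _ _ i j
    rw [e2', ← mul_assoc, ← C_mul, exponents2 _ ht']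

theorem F20_eq_target (N r : ℕ) : F20 N r = target (Fin N) (Fin N) r := rfl

/-- E from the parts -/
theorem main2_of (hP : @EsymmStmt) (hG : @Gadget2Stmt)
    (hC1 : ∀ N r : ℕ, F2t N r 0 = F20 N r)
    (hC2 : ∀ (N r : ℕ) (d), Filter.Tendsto
      (fun k : ℕ => coeff d (F2t N r (1 / ((k : ℂ) + 1)))) Filter.atTop
      (nhds (coeff d (F2t N r 0))))
    (hdeg : ∀ (N r : ℕ) (t : ℂ), (F2t N r t).totalDegree ≤ r + 1)
    (L q m M : ℕ) (hq : 1 ≤ q) (hN : 2 ^ L = 2 * q) (hm : m = size2 L (q + 1))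
    (H : BorderRep m M) (a b : ℕ) (ha : 1 ≤ a) (hb : 1 ≤ b) :
    (q.factorial ^ 2) ^ (2 * q) * (a ^ (2 * q * (2 * q) + 1) * b ^ (2 * M)) ≤
      (a + b) ^ (2 * M + 1) * (2 * b) ^ (2 * q * (2 * q)) := by
  have : NeZero q := ⟨by omega⟩
  have h := assembly hP (L := Fin (2 ^ L)) (V := Fin (2 ^ L)) q m M
    (by rw [Fintype.card_fin, hN])
    (fun k => F2t (2 ^ L) (q + 1) (1 / ((k : ℂ) + 1))) (q + 1 + 1) (fun k => hdeg _ _ _)
    (by
      intro d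
      have := hC2 (2 ^ L) (q + 1) d
      rw [hC1, F20_eq_target] at this
      exact this)
    (by
      intro k
      have h1 : (0 : ℝ) < 1 / ((k : ℝ) + 1) := by positivity
      have h2 := F2t_perm_of hG (q + 1) L m (by omega) _ h1 hm
      have h3 : (((1 / ((k : ℝ) + 1) : ℝ)) : ℂ) = 1 / ((k : ℂ) + 1) := by
        push_cast
        rfl
      rw [h3] at h2
      exact h2)
    H a b ha hb
  rw [Fintype.card_fin, hN] at h
  exact h

end L5helper67.NC
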