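import Pool.Agent.L5helper67.NC.NetRules
import Pool.Agent.L5helper11.Cub.Adder
import Pool.Agent.L5helper34.NC.Multi
import Pool.Agent.L5helper61.NC.Gadget2
import Pool.Agent.L5helper59.NC.MainSize
import Pool.Agent.L5helper79.NC.Lim
import Pool.Agent.L5helper96.Cub.Arith3

/-!
CUBIC: everything together, from the net of the colours on few ports.
-/

namespace L5helper67.NC

open Finset MvPolynomial L5lead.NC L5helper34.NC L5helper96.Cub L5helper96.NC L5helper59.DC

/-- The sum over the colours in linear cost. -/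
theorem multi3 (hM : @MultiNetStmt) (L : ℕ) {ι : Type} {p : ℕ}
    {w : Finset (Fin (2 * 2 ^ L)) → Finset (Fin (2 ^ L)) → MvPolynomial ι ℂ}
    (h : Rep (Fin (2 * 2 ^ L)) (Fin (2 ^ L)) p w) (a c τ : ℂ) (ha : a ≠ 0) (hc : c ≠ 0)
    (hτ : τ ≠ 0) :
    ∃ K : ℂ, K ≠ 0 ∧ Rep (Fin (2 * 2 ^ L)) (Fin (2 ^ L)) (p + cost3 L)
      (fun S T => C K * C (∑ z ∈ range (2 ^ L), τ ^ (z ^ 2) *
        ((∏ i ∈ T, a ^ (i : ℕ)) * ∏ j ∈ S, c ^ (j : ℕ)) ^ z) * w S T) :=
  multi3_of gateStmt (Net.fa gateStmt) (Net.ha gateStmt) hM L h a c τ ha hc hτ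

/-- `F2t` is a permanent of linear size up to a constant. -/
theorem permSize3 (hM : @MultiNetStmt) : L5helper59.NC.PermSizeStmt size3 :=
  fun r L m hr t ht hm =>
    L5helper61.NC.F3t_perm_of L (cost3 L) (fun h a c τ ha hc hτ => multi3 hM L h a c τ ha hc hτ)
      r m hr t ht hm

/-- The count of critical points. -/
theorem main3 (hM : @MultiNetStmt) : Main3Stmt :=
  L5helper59.NC.main_size L5helper79.NC.F2t_zero L5helper79.NC.F2t_tendsto
    L5helper79.NC.F2t_degree (permSize3 hM)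

/-- The cubic bound, for all `m`. -/
theorem cubic_all (hM : @MultiNetStmt) (m M : ℕ) (H : BorderRep m M) :
    ((m : ℝ) / 2912) ^ 3 ≤ (M : ℝ) + 1 :=
  final3_all (main3 hM) m M H

end L5helper67.NC
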