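import Pool.Agent.L5helper67.NC.NetRules
import Pool.Agent.L5helper34.NC.Multi

/-!
CUBIC: the sum over the colours on any set of ports, one hidden bit for every binary digit.
-/

namespace L5helper67.NC

open Finset MvPolynomial L5lead.NC L5helper34.NC L5helper96.Cub

/-- the sum over `z < 2 ^ (L + 1)` through the last binary digit of `z` -/
theorem sum_colours_succ (L : ℕ) (τ W : ℂ) :
    ∑ z ∈ range (2 ^ (L + 1)), τ ^ (z ^ 2) * W ^ z =
      (∑ z ∈ range (2 ^ L), (τ ^ 4) ^ (z ^ 2) * (W ^ 2) ^ z) +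
        τ * W * ∑ z ∈ range (2 ^ L), (τ ^ 4) ^ (z ^ 2) * (τ ^ 4 * W ^ 2) ^ z := by
  have h1 : ∀ n : ℕ, ∑ z ∈ range (2 * n), τ ^ (z ^ 2) * W ^ z =
      (∑ z ∈ range n, (τ ^ 4) ^ (z ^ 2) * (W ^ 2) ^ z) +
        τ * W * ∑ z ∈ range n, (τ ^ 4) ^ (z ^ 2) * (τ ^ 4 * W ^ 2) ^ z := by
    intro n
    induction n with
    | zero => simp
    | succ n ih =>
      rw [Nat.mul_succ, sum_range_succ, sum_range_succ, ih, sum_range_succ, sum_range_succ]
      have e1 : τ ^ ((2 * n) ^ 2) * W ^ (2 * n) = (τ ^ 4) ^ (n ^ 2) * (W ^ 2) ^ n := by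
        rw [← pow_mul, ← pow_mul]
        congr 2
        ring
      have e2 : τ ^ ((2 * n + 1) ^ 2) * W ^ (2 * n + 1) =
          τ * W * ((τ ^ 4) ^ (n ^ 2) * (τ ^ 4 * W ^ 2) ^ n) := by
        rw [show (2 * n + 1) ^ 2 = 4 * n ^ 2 + 4 * n + 1 by ring, pow_succ, pow_add, pow_succ,
          mul_pow, ← pow_mul, ← pow_mul, ← pow_mul]
        ring
      rw [e1, e2]
      ring
  rw [pow_succ', h1]

theorem Net.multi (hG : GateStmt) : @MultiNetStmt := by
  intro L
  induction L with
  | zero =>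
    intro V _ F θ hθ τ hτ
    exact (Net.one V).congr (fun x => by simp) (by simp)
  | succ L ih =>
    intro V _ F θ hθ τ hτ
    have h1 := ih (insertNone F) (fun o : Option V => o.elim (τ ^ 4) (fun v => θ v ^ 2))
      (by
        intro o
        rcases o with _ | v
        · exact pow_ne_zero _ hτ
        · exact pow_ne_zero _ (hθ v)) (τ ^ 4) (pow_ne_zero _ hτ)
    refine (Net.step hG h1 F θ hθ τ).congr (fun x => ?_) ?_
    · have hW : ∀ b : Bool, (∏ v ∈ insertNone F, if L5helper96.Cub.cons b x v then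
          v.elim (τ ^ 4) (fun v => θ v ^ 2) else (1 : ℂ)) =
          (if b then τ ^ 4 else 1) * (∏ v ∈ F, if x v then θ v else 1) ^ 2 := by
        intro b
        rw [Finset.prod_insertNone, ← prod_pow]
        congr 1
        refine prod_congr rfl fun v _ => ?_
        change (if x v then θ v ^ 2 else 1) = _
        split_ifs <;> simp
      rw [sum_colours_succ]
      simp only [hW]
      simp
    · rw [card_insertNone]
      ring

end L5helper67.NC
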