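import Pool.Agent.L5helper67.NC.Cubic
import Pool.Agent.L5helper67.NC.NetMulti

/-!
CUBIC: the bound, without hypotheses.
-/

namespace L5helper67.NC

open L5helper59.DC L5helper34.NC L5helper96.Cub

/-- `F2t` is a permanent of linear size up to a constant. -/
theorem permSize3_closed : L5helper59.NC.PermSizeStmt size3 := permSize3 (Net.multi gateStmt)

/-- The count of critical points. -/
theorem main3_closed : Main3Stmt := main3 (Net.multi gateStmt)

/-- **The cubic bound.** -/
theorem cubic_bound (m M : ℕ) (H : BorderRep m M) :
    ((m : ℝ) / 2912) ^ 3 ≤ (M : ℝ) + 1 :=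
  cubic_all (Net.multi gateStmt) m M H

end L5helper67.NC
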