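import Pool.Agent.L5lead.NC.Defs
import Pool.Agent.L5helper20.DG.Rows
import Pool.Agent.L5helper67.DC.Limits

/-!
NEARLY CUBIC, part G7: the final matrix.
-/

namespace L5helper67.NC

open Finset MvPolynomial L5helper59.DC L5lead.NC Pool.Agent.L5helper20.DG

set_option linter.unusedSectionVars false

/-- The final matrix `[[Y, 1], [1, C]]`. -/
def fin4 {R : Type*} [CommRing R] {ρ γ P Q : Type} [DecidableEq ρ] [DecidableEq γ]
    (Y : ρ → γ → R) (N : P ⊕ γ → Q ⊕ ρ → R) : ρ ⊕ (P ⊕ γ) → γ ⊕ (Q ⊕ ρ) → R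
  | .inl i, .inl j => Y i j
  | .inl _, .inr (.inl _) => 0
  | .inl i, .inr (.inr i') => if i' = i then 1 else 0
  | .inr (.inl _), .inl _ => 0
  | .inr (.inr j), .inl j' => if j' = j then 1 else 0
  | .inr x, .inr y => N x y

section

variable {R : Type*} [CommRing R] {ρ γ P Q : Type} [Fintype ρ] [Fintype γ] [Fintype P] [Fintype Q]
  [DecidableEq ρ] [DecidableEq γ] [DecidableEq P] [DecidableEq Q]
  (Y : ρ → γ → R) (N : P ⊕ γ → Q ⊕ ρ → R)

theorem lin_fin_inl (i : ρ) : lin (fin4 Y N (.inl i)) =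
    rename Sum.inl (lin (Y i)) + X (Sum.inr (Sum.inr i)) := by
  unfold lin
  rw [Fintype.sum_sum_type, Fintype.sum_sum_type, map_sum]
  congr 1
  · refine sum_congr rfl fun p _ => ?_
    rw [map_mul, rename_C, rename_X]
    rfl
  · have h1 : ∑ q : Q, C (fin4 Y N (Sum.inl i) (Sum.inr (Sum.inl q))) *
        (X (Sum.inr (Sum.inl q)) : MvPolynomial (γ ⊕ (Q ⊕ ρ)) R) = 0 := by
      refine sum_eq_zero fun q _ => ?_
      change C 0 * _ = _
      rw [C_0, zero_mul]
    rw [h1, zero_add, sum_eq_single i]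
    · change C (if i = i then 1 else 0) * _ = _
      rw [if_pos rfl, C_1, one_mul]
    · intro i' _ hi'
      change C (if i' = i then 1 else 0) * _ = _
      rw [if_neg hi', C_0, zero_mul]
    · intro h
      exact absurd (mem_univ _) h

theorem lin_fin_inr_inl (p : P) : lin (fin4 Y N (.inr (.inl p))) =
    rename Sum.inr (lin (N (.inl p))) := by
  unfold lin
  rw [Fintype.sum_sum_type, map_sum]
  have h1 : ∑ j : γ, C (fin4 Y N (Sum.inr (Sum.inl p)) (Sum.inl j)) *
      (X (Sum.inl j) : MvPolynomial (γ ⊕ (Q ⊕ ρ)) R) = 0 := by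
    refine sum_eq_zero fun q _ => ?_
    change C 0 * _ = _
    rw [C_0, zero_mul]
  rw [h1, zero_add]
  refine sum_congr rfl fun p _ => ?_
  rw [map_mul, rename_C, rename_X]
  rfl

theorem lin_fin_inr_inr (j : γ) : lin (fin4 Y N (.inr (.inr j))) =
    rename Sum.inr (lin (N (.inr j))) + X (Sum.inl j) := by
  unfold lin
  rw [Fintype.sum_sum_type, map_sum, add_comm]
  congr 1
  · refine sum_congr rfl fun p _ => ?_
    rw [map_mul, rename_C, rename_X]
    rfl
  · rw [sum_eq_single j]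
    · change C (if j = j then 1 else 0) * _ = _
      rw [if_pos rfl, C_1, one_mul]
    · intro i' _ hi'
      change C (if i' = j then 1 else 0) * _ = _
      rw [if_neg hi', C_0, zero_mul]
    · intro h
      exact absurd (mem_univ _) h

/-- the columns which are used by the entries `1` -/
def ones (I : Finset ρ) (J : Finset γ) : Finset (γ ⊕ (Q ⊕ ρ)) :=
  (univ \ J).disjSum ((∅ : Finset Q).disjSum (univ \ I))

theorem ex_ones (I : Finset ρ) (J : Finset γ) :
    ex (univ \ ones (Q := Q) I J) =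
      (ex J).mapDomain Sum.inl + (ex ((univ : Finset Q).disjSum I)).mapDomain Sum.inr := by
  rw [mapDomain_ex Sum.inl_injective, mapDomain_ex Sum.inr_injective, ex_union]
  · congr 1
    ext c
    rcases c with j | q | i
    · simp [ones]
    · simp [ones]
    · simp [ones]
  · rw [disjoint_left]
    intro c hc hc'
    obtain ⟨_, _, rfl⟩ := mem_image.1 hc
    obtain ⟨_, _, h⟩ := mem_image.1 hc'
    exact Sum.inr_ne_inl h

theorem prod_ones (I : Finset ρ) (J : Finset γ) :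
    (∏ c ∈ ones (Q := Q) I J, (X c : MvPolynomial (γ ⊕ (Q ⊕ ρ)) R)) =
      (∏ j ∈ univ \ J, X (Sum.inl j)) * ∏ i ∈ univ \ I, X (Sum.inr (Sum.inr i)) := by
  unfold ones
  rw [prod_disjSum, prod_disjSum, prod_empty, one_mul]

theorem coeff_fin : coeff (ex univ) (∏ a, lin (fin4 Y N a)) =
    ∑ I : Finset ρ, ∑ J : Finset γ, pm Y I J * pm N (univ.disjSum J) (univ.disjSum I) := by
  rw [Fintype.prod_sum_type, Fintype.prod_sum_type]
  simp only [lin_fin_inl, lin_fin_inr_inl, lin_fin_inr_inr]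
  rw [prod_add, prod_add, sum_mul, coeff_sum, powerset_univ, powerset_univ]
  refine sum_congr rfl fun I _ => ?_
  rw [mul_sum, mul_sum, coeff_sum]
  refine sum_congr rfl fun J _ => ?_
  have h1 : (∏ i ∈ I, (rename Sum.inl (lin (Y i)) : MvPolynomial (γ ⊕ (Q ⊕ ρ)) R)) *
      (∏ i ∈ univ \ I, X (Sum.inr (Sum.inr i))) *
      ((∏ p, rename Sum.inr (lin (N (.inl p)))) *
        ((∏ j ∈ J, rename Sum.inr (lin (N (.inr j)))) * ∏ j ∈ univ \ J, X (Sum.inl j))) =
      (rename Sum.inl (∏ i ∈ I, lin (Y i)) *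
        rename Sum.inr (∏ x ∈ (univ : Finset P).disjSum J, lin (N x))) *
        ∏ c ∈ ones (Q := Q) I J, X c := by
    rw [prod_ones, prod_disjSum, map_mul, map_prod, map_prod, map_prod]
    ring
  rw [h1, coeff_mul_prod, ex_ones, coeff_sum_rename]
  rfl

end

variable {ι : Type}

theorem fin4_degree {ρ γ P Q : Type} [DecidableEq ρ] [DecidableEq γ]
    (Y : ρ → γ → MvPolynomial ι ℂ) (N : P ⊕ γ → Q ⊕ ρ → MvPolynomial ι ℂ)
    (hY : ∀ i j, (Y i j).totalDegree ≤ 1) (hN : ∀ x y, (N x y).totalDegree ≤ 1)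
    (x : ρ ⊕ (P ⊕ γ)) (y : γ ⊕ (Q ⊕ ρ)) : (fin4 Y N x y).totalDegree ≤ 1 := by
  have h0 : (0 : MvPolynomial ι ℂ).totalDegree ≤ 1 := by
    rw [totalDegree_zero]; omega
  have h1 : (1 : MvPolynomial ι ℂ).totalDegree ≤ 1 := by
    rw [totalDegree_one]; omega
  have h2 : ∀ c : Prop, ∀ _ : Decidable c,
      (if c then (1 : MvPolynomial ι ℂ) else 0).totalDegree ≤ 1 := by
    intro c _
    split_ifs
    · exact h1
    · exact h0
  rcases x with i | p | j <;> rcases y with j' | q | i'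
  · exact hY i j'
  · exact h0
  · exact h2 _ _
  · exact h0
  · exact hN _ _
  · exact hN _ _
  · exact h2 _ _
  · exact hN _ _
  · exact hN _ _

/-- G7: the final matrix `[[Y, 1], [1, C]]`; the net has row ports `γ` and column ports `ρ`. -/
theorem _root_.L5lead.NC.Rep.final {ρ γ : Type} [Fintype ρ] [Fintype γ] [DecidableEq ρ]
    [DecidableEq γ] {p m : ℕ}
    {w : Finset γ → Finset ρ → MvPolynomial ι ℂ} (h : Rep γ ρ p w)
    (Y : ρ → γ → MvPolynomial ι ℂ) (hY : ∀ i j, (Y i j).totalDegree ≤ 1)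
    (hm : m = Fintype.card ρ + Fintype.card γ + p) :
    ∃ M : Matrix (Fin m) (Fin m) (MvPolynomial ι ℂ), (∀ x y, (M x y).totalDegree ≤ 1) ∧
      M.permanent = ∑ I : Finset ρ, ∑ J : Finset γ, pm Y I J * w J I := by
  obtain ⟨P, Q, fP, fQ, dP, dQ, hP, hQ, N, hN, hw⟩ := h
  have c1 : Fintype.card (ρ ⊕ (P ⊕ γ)) = m := by
    rw [Fintype.card_sum, Fintype.card_sum, hP, hm]
    omega
  have c2 : Fintype.card (γ ⊕ (Q ⊕ ρ)) = m := by
    rw [Fintype.card_sum, Fintype.card_sum, hQ, hm]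
    omega
  let e₁ : Fin m ≃ ρ ⊕ (P ⊕ γ) := (Fintype.equivFinOfCardEq c1).symm
  let e₂ : Fin m ≃ γ ⊕ (Q ⊕ ρ) := (Fintype.equivFinOfCardEq c2).symm
  refine ⟨Matrix.of fun a b => fin4 Y N (e₁ a) (e₂ b), fun x y => ?_, ?_⟩
  · exact fin4_degree Y N hY hN _ _
  · rw [permanent_eq, coeff_fin]
    refine sum_congr rfl fun I _ => sum_congr rfl fun J _ => ?_
    rw [hw]

end L5helper67.NC
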