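import Pool.Agent.L5helper67.NC.Merge

/-!
Hierarchical merging: from a net on positions to a net on blocks of positions.
-/

namespace L5helper67.NC

open Finset MvPolynomial L5helper59.DC L5lead.NC

set_option linter.unusedSectionVars false

/-- the statement of `Rep.multi` -/
def MultiStmt : Prop :=
  ∀ (L : ℕ) {ι α β : Type} [Fintype α] [Fintype β] [DecidableEq α] [DecidableEq β] {p : ℕ}
      {w : Finset α → Finset β → MvPolynomial ι ℂ} (_ : Rep α β p w) (a : β → ℂ) (c : α → ℂ)
      (τ : ℂ) (_ : ∀ i, a i ≠ 0) (_ : ∀ j, c j ≠ 0) (_ : τ ≠ 0),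
    ∃ K : ℂ, K ≠ 0 ∧
      Rep α β (p + (L * (2 * Fintype.card α + 2 * Fintype.card β) + 2 * L ^ 2))
        (fun S T => C K * C (∑ z ∈ range (2 ^ L), τ ^ (z ^ 2) *
          ((∏ i ∈ T, a i) * ∏ j ∈ S, c j) ^ z) * w S T)

section

variable {R : Type*} [CommRing R] {α β : Type*} [Fintype β] [DecidableEq α] [DecidableEq β]

theorem pm_scale_col (N : α → β → R) (μ : β → R) (S : Finset α) (T : Finset β) :
    pm (fun x y => N x y * μ y) S T = (∏ y ∈ T, μ y) * pm N S T := by
  induction S using Finset.induction_on generalizing T with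
  | empty =>
    rw [pm_empty, pm_empty]
    split_ifs with h
    · rw [h, prod_empty, one_mul]
    · rw [mul_zero]
  | insert a S ha ih =>
    rw [pm_insert _ S T a ha, pm_insert _ S T a ha, mul_sum]
    refine sum_congr rfl fun c hc => ?_
    rw [ih, ← mul_prod_erase T μ hc]
    ring

theorem pm_scale_row (N : α → β → R) (μ : α → R) (S : Finset α) (T : Finset β) :
    pm (fun x y => μ x * N x y) S T = (∏ x ∈ S, μ x) * pm N S T := by
  induction S using Finset.induction_on generalizing T with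
  | empty => rw [pm_empty, pm_empty, prod_empty, one_mul]
  | insert a S ha ih =>
    rw [pm_insert _ S T a ha, pm_insert _ S T a ha, mul_sum, prod_insert ha]
    refine sum_congr rfl fun c _ => ?_
    rw [ih]
    ring

end

variable {ι : Type} {α β β' α' : Type} [Fintype α] [Fintype β] [DecidableEq α] [DecidableEq β]
  [Fintype α'] [Fintype β'] [DecidableEq α'] [DecidableEq β']

theorem totalDegree_mul_C_le' {ι : Type} (z : ℂ) (P : MvPolynomial ι ℂ) :
    (P * C z : MvPolynomial ι ℂ).totalDegree ≤ P.totalDegree := by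
  refine (totalDegree_mul _ _).trans ?_
  rw [totalDegree_C, add_zero]

/-- scaling all column ports -/
theorem _root_.L5lead.NC.Rep.scaleAll {p : ℕ} {w : Finset α → Finset β → MvPolynomial ι ℂ}
    (h : Rep α β p w) (μ : β → ℂ) :
    Rep α β p (fun S T => C (∏ y ∈ T, μ y) * w S T) := by
  obtain ⟨P, Q, fP, fQ, dP, dQ, hP, hQ, N, hN, hw⟩ := h
  refine ⟨P, Q, fP, fQ, dP, dQ, hP, hQ, fun x y => N x y *
    C (match y with | .inl _ => 1 | .inr b => μ b), fun x y =>
      (totalDegree_mul_C_le' _ _).trans (hN x y), fun S T => ?_⟩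
  rw [pm_scale_col N, hw, prod_disjSum]
  simp only [C_1, prod_const_one, one_mul]
  rw [map_prod]

theorem prod_labels (lab : β' → Bool) (T : Finset β') (t : ℂ) (ht : t ≠ 0) :
    (∏ x ∈ T, (if lab x then t else 1)) * (1 + ∏ x ∈ T, (if lab x then t⁻¹ else t)) =
      ∑ u : Bool, t ^ (T.filter fun x => lab x ≠ u).card := by
  rw [Fintype.sum_bool]
  have h1 : (∏ x ∈ T, (if lab x then t else 1)) =
      t ^ (T.filter fun x => lab x ≠ false).card := by
    rw [prod_ite, prod_const_one, mul_one, prod_const]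
    congr 2
    ext x
    simp
  have h2 : (∏ x ∈ T, (if lab x then t else 1)) * (∏ x ∈ T, (if lab x then t⁻¹ else t)) =
      t ^ (T.filter fun x => lab x ≠ true).card := by
    rw [← prod_mul_distrib, ← prod_const, prod_filter]
    refine prod_congr rfl fun x _ => ?_
    cases lab x
    · simp
    · simp [ht]
  rw [mul_add, mul_one, h2, h1, add_comm]

/-- one more label -/
theorem label (hmulti : @MultiStmt) {p : ℕ} {w : Finset α → Finset β → MvPolynomial ι ℂ}
    (h : Rep α β p w) (π : β' → β) (lab : β' → Bool) (t : ℂ) (ht : t ≠ 0) :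
    ∃ K : ℂ, K ≠ 0 ∧ Rep α β'
      (p + Fintype.card β + (1 * (2 * Fintype.card α + 2 * Fintype.card β') + 2 * 1 ^ 2))
      (fun S T => C K * C (∑ u : Bool, t ^ (T.filter fun x => lab x ≠ u).card) *
        if Set.InjOn π T then w S (T.image π) else 0) := by
  obtain ⟨K, hK, h1⟩ := hmulti 1 (h.merge π) (fun x => if lab x then t⁻¹ else t) (fun _ => 1) 1
    (fun x => by
      split_ifs
      · exact inv_ne_zero ht
      · exact ht) (fun _ => one_ne_zero) one_ne_zero
  refine ⟨K, hK, ?_⟩
  have h2 := h1.scaleAll (fun x => if lab x then t else 1)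
  have h3 : (fun (S : Finset α) (T : Finset β') => C (∏ y ∈ T, if lab y then t else 1) *
      (C K * C (∑ z ∈ range (2 ^ 1), 1 ^ (z ^ 2) *
        ((∏ i ∈ T, if lab i then t⁻¹ else t) * ∏ j ∈ S, (1 : ℂ)) ^ z) *
        (if Set.InjOn π T then w S (T.image π) else 0))) =
      (fun (S : Finset α) (T : Finset β') => C K * C (∑ u : Bool,
        t ^ (T.filter fun x => lab x ≠ u).card) *
        if Set.InjOn π T then w S (T.image π) else (0 : MvPolynomial ι ℂ)) := by
    funext S T
    have e1 : (∑ z ∈ range (2 ^ 1), (1 : ℂ) ^ (z ^ 2) *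
        ((∏ i ∈ T, if lab i then t⁻¹ else t) * ∏ j ∈ S, (1 : ℂ)) ^ z) =
        1 + ∏ x ∈ T, (if lab x then t⁻¹ else t) := by
      rw [prod_const_one, mul_one]
      simp [sum_range_succ]
    rw [e1, ← prod_labels lab T t ht, C_mul]
    ring
  rw [h3] at h2
  exact h2

/-- the weight of the labels -/
noncomputable def Wl {s : ℕ} {X : Type} (t : ℂ) (S : Finset ((Fin s → Bool) × X)) : ℂ :=
  ∏ l, ∑ u : Bool, t ^ (S.filter fun x => x.1 l ≠ u).card

/-- forgetting the first label -/
def tl {s : ℕ} {X : Type} (x : (Fin (s + 1) → Bool) × X) : (Fin s → Bool) × X :=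
  (fun l => x.1 l.succ, x.2)

theorem injOn_tl {s : ℕ} {X : Type} [DecidableEq X] (S : Finset ((Fin (s + 1) → Bool) × X)) :
    (Set.InjOn tl (S : Set ((Fin (s + 1) → Bool) × X)) ∧
      Set.InjOn Prod.snd ((S.image tl : Finset _) : Set ((Fin s → Bool) × X))) ↔
      Set.InjOn Prod.snd (S : Set ((Fin (s + 1) → Bool) × X)) := by
  have hc : (Prod.snd ∘ tl : (Fin (s + 1) → Bool) × X → X) = Prod.snd := rfl
  rw [coe_image]
  constructor
  · rintro ⟨h1, h2⟩
    rw [← hc]
    exact h2.comp h1 (Set.mapsTo_image _ _)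
  · intro h
    rw [← hc] at h
    exact ⟨h.of_comp, h.image_of_comp⟩

theorem Wl_tl {s : ℕ} {X : Type} [DecidableEq X] (t : ℂ)
    (S : Finset ((Fin (s + 1) → Bool) × X))
    (h : Set.InjOn tl (S : Set ((Fin (s + 1) → Bool) × X))) :
    (∑ u : Bool, t ^ (S.filter fun x => x.1 0 ≠ u).card) * Wl t (S.image tl) = Wl t S := by
  unfold Wl
  rw [Fin.prod_univ_succ]
  congr 1
  refine prod_congr rfl fun l _ => sum_congr rfl fun u _ => ?_
  congr 1
  rw [filter_image, card_image_of_injOn]
  · rfl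
  · exact h.mono (coe_subset.2 (filter_subset _ _))

/-- the size after `s` levels -/
def cost3 (A B p : ℕ) : ℕ → ℕ
  | 0 => p + B + A
  | s + 1 => (cost3 A B p s + 2 ^ s * B +
      (1 * (2 * (2 ^ s * A) + 2 * (2 ^ (s + 1) * B)) + 2 * 1 ^ 2)) + 2 ^ s * A +
      (1 * (2 * (2 ^ (s + 1) * B) + 2 * (2 ^ (s + 1) * A)) + 2 * 1 ^ 2)

theorem cost3_eq (A B p s : ℕ) :
    cost3 A B p s + (7 * A + 9 * B) = p + B + A + 2 ^ s * (7 * A + 9 * B) + 4 * s := by
  induction s with
  | zero => simp [cost3]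
  | succ s ih =>
    rw [cost3]
    rw [pow_succ]
    ring_nf at ih ⊢
    omega

theorem card_lines (s : ℕ) (X : Type) [Fintype X] :
    Fintype.card ((Fin s → Bool) × X) = 2 ^ s * Fintype.card X := by
  rw [Fintype.card_prod, Fintype.card_fun, Fintype.card_bool, Fintype.card_fin]

/-- **Hierarchical merging.** -/
theorem levels (hmulti : @MultiStmt) {p : ℕ} {w : Finset α → Finset β → MvPolynomial ι ℂ}
    (h : Rep α β p w) (t : ℂ) (ht : t ≠ 0) (s : ℕ) :
    ∃ K : ℂ, K ≠ 0 ∧ Rep ((Fin s → Bool) × α) ((Fin s → Bool) × β)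
      (cost3 (Fintype.card α) (Fintype.card β) p s)
      (fun S T => C K * C (Wl t S * Wl t T) *
        if Set.InjOn Prod.snd (S : Set ((Fin s → Bool) × α)) ∧
          Set.InjOn Prod.snd (T : Set ((Fin s → Bool) × β)) then
          w (S.image Prod.snd) (T.image Prod.snd) else 0) := by
  induction s with
  | zero =>
    refine ⟨1, one_ne_zero, ?_⟩
    have h1 := h.merge (Prod.snd : (Fin 0 → Bool) × β → β)
    have h2 := (h1.transpose.merge (Prod.snd : (Fin 0 → Bool) × α → α)).transpose
    have h3 : (fun (S : Finset ((Fin 0 → Bool) × α)) (T : Finset ((Fin 0 → Bool) × β)) =>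
        if Set.InjOn Prod.snd (S : Set ((Fin 0 → Bool) × α)) then
          (if Set.InjOn Prod.snd (T : Set ((Fin 0 → Bool) × β)) then
            w (S.image Prod.snd) (T.image Prod.snd) else 0) else 0) =
        (fun (S : Finset ((Fin 0 → Bool) × α)) (T : Finset ((Fin 0 → Bool) × β)) =>
        C 1 * C (Wl t S * Wl t T) *
        if Set.InjOn Prod.snd (S : Set ((Fin 0 → Bool) × α)) ∧
          Set.InjOn Prod.snd (T : Set ((Fin 0 → Bool) × β)) then
          w (S.image Prod.snd) (T.image Prod.snd) else 0) := by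
      funext S T
      unfold Wl
      rw [Fin.prod_univ_zero, Fin.prod_univ_zero, one_mul, C_1, one_mul, one_mul]
      split_ifs <;> simp_all
    rw [← h3]
    exact h2
  | succ s ih =>
    obtain ⟨K, hK, h0⟩ := ih
    obtain ⟨K₁, hK₁, h1⟩ := label hmulti h0 (tl : (Fin (s + 1) → Bool) × β → _)
      (fun x => x.1 0) t ht
    obtain ⟨K₂, hK₂, h2⟩ := label hmulti h1.transpose (tl : (Fin (s + 1) → Bool) × α → _)
      (fun x => x.1 0) t ht
    refine ⟨K₂ * K₁ * K, mul_ne_zero (mul_ne_zero hK₂ hK₁) hK, ?_⟩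
    have h3 := h2.transpose
    have hcost : cost3 (Fintype.card α) (Fintype.card β) p (s + 1) =
        (cost3 (Fintype.card α) (Fintype.card β) p s + Fintype.card ((Fin s → Bool) × β) +
          (1 * (2 * Fintype.card ((Fin s → Bool) × α) +
            2 * Fintype.card ((Fin (s + 1) → Bool) × β)) + 2 * 1 ^ 2)) +
          Fintype.card ((Fin s → Bool) × α) +
          (1 * (2 * Fintype.card ((Fin (s + 1) → Bool) × β) +
            2 * Fintype.card ((Fin (s + 1) → Bool) × α)) + 2 * 1 ^ 2) := by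
      rw [cost3]
      simp only [card_lines]
    rw [hcost]
    refine cast ?_ h3
    congr 1
    funext S T
    by_cases hS : Set.InjOn tl (S : Set ((Fin (s + 1) → Bool) × α))
    · by_cases hT : Set.InjOn tl (T : Set ((Fin (s + 1) → Bool) × β))
      · rw [if_pos hS, if_pos hT, ← Wl_tl t S hS, ← Wl_tl t T hT]
        by_cases hc : Set.InjOn Prod.snd (S : Set ((Fin (s + 1) → Bool) × α)) ∧
            Set.InjOn Prod.snd (T : Set ((Fin (s + 1) → Bool) × β))
        · rw [if_pos hc, if_pos ⟨((injOn_tl S).2 hc.1).2, ((injOn_tl T).2 hc.2).2⟩, image_image,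
            image_image]
          simp only [C_mul]
          have e1 : (Prod.snd ∘ tl : (Fin (s + 1) → Bool) × α → α) = Prod.snd := rfl
          have e2 : (Prod.snd ∘ tl : (Fin (s + 1) → Bool) × β → β) = Prod.snd := rfl
          rw [e1, e2]
          ring
        · rw [if_neg hc, if_neg, mul_zero, mul_zero, mul_zero, mul_zero]
          rintro ⟨h4, h5⟩
          exact hc ⟨(injOn_tl S).1 ⟨hS, h4⟩, (injOn_tl T).1 ⟨hT, h5⟩⟩
      · rw [if_pos hS, if_neg hT, if_neg, mul_zero, mul_zero, mul_zero]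
        rintro ⟨h4, h5⟩
        exact hT ((injOn_tl T).2 h5).1
    · rw [if_neg hS, if_neg, mul_zero, mul_zero]
      rintro ⟨h4, h5⟩
      exact hS ((injOn_tl S).2 h4).1

end L5helper67.NC
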