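import Pool.Agent.L5helper54.NC.Basic
import Pool.Agent.L5helper20.DG.Rows
import Pool.Agent.L5helper67.DC.Limits

/-!
Merging ports: from a net with column ports `β` to a net with column ports `β'` along a map
`π : β' → β`.
-/

namespace L5helper67.NC

open Finset MvPolynomial L5helper59.DC L5lead.NC Pool.Agent.L5helper20.DG

set_option linter.unusedSectionVars false

section

variable {R : Type*} [CommRing R] {A B β β' : Type} [Fintype A] [Fintype B] [Fintype β] [Fintype β']
  [DecidableEq A] [DecidableEq B] [DecidableEq β] [DecidableEq β']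

/-- the products of the sums over the fibres -/
theorem sc_fibres (π : β' → β) (U : Finset β) (T : Finset β') :
    coeff (ex T) (∏ b ∈ U, ∑ x : β', (C (if π x = b then 1 else 0) * X x :
      MvPolynomial β' R)) = if T.image π = U ∧ Set.InjOn π T then 1 else 0 := by
  change L5helper54.DC.sc _ T = _
  induction U using Finset.induction_on generalizing T with
  | empty =>
    rw [prod_empty, L5helper54.DC.sc_one]
    by_cases hT : T = ∅
    · subst hT
      simp
    · rw [if_neg hT, if_neg]
      rintro ⟨h, _⟩
      exact hT (image_eq_empty.1 h)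
  | insert b U hb ih =>
    rw [prod_insert hb]
    have h0 : (∑ x : β', (C (if π x = b then 1 else 0) * X x : MvPolynomial β' R)) =
        lin (fun x => if π x = b then (1 : R) else 0) := rfl
    rw [h0, L5helper54.DC.sc_lin_mul]
    simp only [ih]
    by_cases hc : T.image π = insert b U ∧ Set.InjOn π T
    · rw [if_pos hc]
      obtain ⟨h1, h2⟩ := hc
      have h3 : b ∈ T.image π := by rw [h1]; exact mem_insert_self _ _
      obtain ⟨x, hx, hxb⟩ := mem_image.1 h3
      rw [sum_eq_single_of_mem x hx]
      · rw [if_pos hxb, if_pos, mul_one]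
        refine ⟨?_, h2.mono (coe_subset.2 (erase_subset _ _))⟩
        ext c
        constructor
        · intro hcm
          obtain ⟨y, hy, rfl⟩ := mem_image.1 hcm
          have h4 : π y ∈ insert b U := by
            rw [← h1]
            exact mem_image_of_mem π (mem_of_mem_erase hy)
          rcases mem_insert.1 h4 with h5 | h5
          · exfalso
            exact ne_of_mem_erase hy (h2 (mem_of_mem_erase hy) hx (h5.trans hxb.symm))
          · exact h5
        · intro hcU
          have h4 : c ∈ T.image π := by
            rw [h1]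
            exact mem_insert_of_mem hcU
          obtain ⟨y, hy, rfl⟩ := mem_image.1 h4
          refine mem_image_of_mem π (mem_erase.2 ⟨?_, hy⟩)
          rintro rfl
          rw [hxb] at hcU
          exact hb hcU
      · intro y hy hyx
        rw [if_neg, zero_mul]
        intro h4
        exact hyx (h2 hy hx (h4.trans hxb.symm))
    · rw [if_neg hc]
      refine sum_eq_zero fun x hx => ?_
      by_cases hxb : π x = b
      · rw [if_pos hxb, if_neg, mul_zero]
        rintro ⟨h1, h2⟩
        apply hc
        have h5 : insert x (T.erase x) = T := insert_erase hx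
        have h6 : b ∉ (T.erase x).image π := by rw [h1]; exact hb
        constructor
        · rw [← h5, image_insert, h1, hxb]
        · rw [← h5, coe_insert]
          rw [Set.injOn_insert (by simp)]
          refine ⟨h2, ?_⟩
          rw [hxb, ← coe_image]
          exact_mod_cast h6
      · rw [if_neg hxb, zero_mul]

/-- The matrix of the merged net. -/
def mergeMat (π : β' → β) (N : A → B ⊕ β → R) : A ⊕ β → (B ⊕ β) ⊕ β' → R
  | .inl a, .inl y => N a y
  | .inl _, .inr _ => 0
  | .inr _, .inl (.inl _) => 0
  | .inr b, .inl (.inr b') => if b' = b then 1 else 0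
  | .inr b, .inr x => if π x = b then 1 else 0

theorem lin_merge_inl (π : β' → β) (N : A → B ⊕ β → R) (a : A) :
    lin (mergeMat π N (.inl a)) = rename Sum.inl (lin (N a)) := by
  unfold lin
  rw [Fintype.sum_sum_type, map_sum]
  have h1 : ∑ x : β', C (mergeMat π N (Sum.inl a) (Sum.inr x)) *
      (X (Sum.inr x) : MvPolynomial ((B ⊕ β) ⊕ β') R) = 0 := by
    refine sum_eq_zero fun x _ => ?_
    change C 0 * _ = _
    rw [C_0, zero_mul]
  rw [h1, add_zero]
  refine sum_congr rfl fun y _ => ?_
  rw [map_mul, rename_C, rename_X]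
  rfl

theorem lin_merge_inr (π : β' → β) (N : A → B ⊕ β → R) (b : β) :
    lin (mergeMat π N (.inr b)) =
      rename Sum.inr (∑ x : β', (C (if π x = b then 1 else 0) * X x : MvPolynomial β' R)) +
        X (Sum.inl (Sum.inr b)) := by
  unfold lin
  rw [Fintype.sum_sum_type, Fintype.sum_sum_type, map_sum, add_comm]
  congr 1
  · refine sum_congr rfl fun x _ => ?_
    rw [map_mul, rename_C, rename_X]
    rfl
  · have h1 : ∑ y : B, C (mergeMat π N (Sum.inr b) (Sum.inl (Sum.inl y))) *
        (X (Sum.inl (Sum.inl y)) : MvPolynomial ((B ⊕ β) ⊕ β') R) = 0 := by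
      refine sum_eq_zero fun x _ => ?_
      change C 0 * _ = _
      rw [C_0, zero_mul]
    rw [h1, zero_add, sum_eq_single b]
    · change C (if b = b then 1 else 0) * _ = _
      rw [if_pos rfl, C_1, one_mul]
    · intro b' _ hb'
      change C (if b' = b then 1 else 0) * _ = _
      rw [if_neg hb', C_0, zero_mul]
    · intro h
      exact absurd (mem_univ _) h

theorem coeff_ex_mul_prod {σ : Type*} [DecidableEq σ] (P : MvPolynomial σ R)
    (T E : Finset σ) (hE : E ⊆ T) :
    coeff (ex T) (P * ∏ c ∈ E, X c) = coeff (ex (T \ E)) P := by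
  have h : ex T = ex (T \ E) + ex E := by
    rw [ex_union disjoint_sdiff_self_left, sdiff_union_of_subset hE]
  rw [prod_X, h, coeff_mul_monomial, mul_one]

/-- the subpermanents of the matrix of the merged net -/
theorem pm_merge (π : β' → β) (N : A → B ⊕ β → R) (S : Finset A) (T' : Finset β') :
    pm (mergeMat π N) (S.disjSum univ) ((univ : Finset (B ⊕ β)).disjSum T') =
      if Set.InjOn π T' then pm N S ((univ : Finset B).disjSum (T'.image π)) else 0 := by
  unfold pm
  rw [prod_disjSum]
  simp only [lin_merge_inl, lin_merge_inr]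
  rw [prod_add, mul_sum]
  change coeff (ex _) _ = _
  rw [coeff_sum, powerset_univ]
  have hexT : ex ((univ : Finset (B ⊕ β)).disjSum T') =
      (ex (univ : Finset (B ⊕ β))).mapDomain Sum.inl + (ex T').mapDomain Sum.inr := by
    rw [mapDomain_ex Sum.inl_injective, mapDomain_ex Sum.inr_injective, ex_union]
    · congr 1
      ext c
      rcases c with y | x <;> simp
    · rw [disjoint_left]
      intro c hc hc'
      obtain ⟨_, _, rfl⟩ := mem_image.1 hc
      obtain ⟨_, _, h⟩ := mem_image.1 hc'
      exact Sum.inr_ne_inl h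
  have h1 : ∀ U : Finset β, coeff (ex ((univ : Finset (B ⊕ β)).disjSum T'))
      ((∏ a ∈ S, (rename Sum.inl (lin (N a)) : MvPolynomial ((B ⊕ β) ⊕ β') R)) *
        ((∏ b ∈ U, rename Sum.inr
          (∑ x : β', (C (if π x = b then 1 else 0) * X x : MvPolynomial β' R))) *
          ∏ b ∈ univ \ U, X (Sum.inl (Sum.inr b)))) =
      if T'.image π = U ∧ Set.InjOn π T' then pm N S ((univ : Finset B).disjSum U) else 0 := by
    intro U
    have h2 : (∏ a ∈ S, (rename Sum.inl (lin (N a)) : MvPolynomial ((B ⊕ β) ⊕ β') R)) *
        ((∏ b ∈ U, rename Sum.inr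
          (∑ x : β', (C (if π x = b then 1 else 0) * X x : MvPolynomial β' R))) *
          ∏ b ∈ univ \ U, X (Sum.inl (Sum.inr b))) =
        rename Sum.inl ((∏ a ∈ S, lin (N a)) *
          ∏ c ∈ (univ \ U).map Function.Embedding.inr, (X c : MvPolynomial (B ⊕ β) R)) *
          rename Sum.inr (∏ b ∈ U,
            ∑ x : β', (C (if π x = b then 1 else 0) * X x : MvPolynomial β' R)) := by
      rw [map_mul, map_prod, map_prod, map_prod, prod_map]
      simp only [rename_X, Function.Embedding.inr_apply]
      ring
    rw [h2, hexT, coeff_sum_rename, sc_fibres, coeff_ex_mul_prod _ _ _ (subset_univ _)]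
    have h3 : (univ : Finset (B ⊕ β)) \ (univ \ U).map Function.Embedding.inr =
        (univ : Finset B).disjSum U := by
      ext c
      rcases c with y | x <;> simp
    rw [h3]
    split_ifs
    · rw [mul_one]
      rfl
    · rw [mul_zero]
  rw [sum_congr rfl (fun U _ => h1 U)]
  by_cases hI : Set.InjOn π T'
  · rw [if_pos hI, sum_eq_single (T'.image π)]
    · rw [if_pos ⟨rfl, hI⟩]
      rfl
    · intro U _ hU
      rw [if_neg]
      rintro ⟨h, _⟩
      exact hU h.symm
    · intro h
      exact absurd (mem_univ _) h
  · rw [if_neg hI]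
    exact sum_eq_zero fun U _ => if_neg fun h => hI h.2

end

section

variable {ι : Type} {α β β' α' : Type} [Fintype α] [Fintype β] [DecidableEq α] [DecidableEq β]
  [Fintype α'] [Fintype β'] [DecidableEq α'] [DecidableEq β']

theorem mergeMat_degree {A B : Type} (π : β' → β) (N : A → B ⊕ β → MvPolynomial ι ℂ)
    (hN : ∀ x y, (N x y).totalDegree ≤ 1) (x : A ⊕ β) (y : (B ⊕ β) ⊕ β') :
    (mergeMat π N x y).totalDegree ≤ 1 := by
  have h0 : (0 : MvPolynomial ι ℂ).totalDegree ≤ 1 := by
    rw [totalDegree_zero]; omega
  have h1 : (1 : MvPolynomial ι ℂ).totalDegree ≤ 1 := by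
    rw [totalDegree_one]; omega
  have h2 : ∀ c : Prop, ∀ _ : Decidable c,
      (if c then (1 : MvPolynomial ι ℂ) else 0).totalDegree ≤ 1 := by
    intro c _
    split_ifs
    · exact h1
    · exact h0
  rcases x with a | b <;> rcases y with (y | b') | x'
  · exact hN _ _
  · exact hN _ _
  · exact h0
  · exact h0
  · exact h2 _ _
  · exact h2 _ _

/-- **Merging column ports.** -/
theorem _root_.L5lead.NC.Rep.merge {p : ℕ} {w : Finset α → Finset β → MvPolynomial ι ℂ}
    (h : Rep α β p w) (π : β' → β) :
    Rep α β' (p + Fintype.card β)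
      (fun S T => if Set.InjOn π T then w S (T.image π) else 0) := by
  obtain ⟨P, Q, fP, fQ, dP, dQ, hP, hQ, N, hN, hw⟩ := h
  refine ⟨P ⊕ β, Q ⊕ β, inferInstance, inferInstance, inferInstance, inferInstance,
    by rw [Fintype.card_sum, hP], by rw [Fintype.card_sum, hQ],
    fun x y => mergeMat π N (match x with
      | .inl (.inl a) => .inl (.inl a)
      | .inl (.inr b) => .inr b
      | .inr a => .inl (.inr a)) y, fun x y => mergeMat_degree π N hN _ _, ?_⟩
  intro S T
  let f : (P ⊕ β) ⊕ α ↪ (P ⊕ α) ⊕ β := ⟨fun x => match x with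
      | .inl (.inl a) => .inl (.inl a)
      | .inl (.inr b) => .inr b
      | .inr a => .inl (.inr a), by
    intro x y hxy
    rcases x with (x | x) | x <;> rcases y with (y | y) | y <;> simp_all⟩
  have h1 := pm_map (mergeMat π N) f (Function.Embedding.refl _)
    ((univ : Finset (P ⊕ β)).disjSum S) ((univ : Finset (Q ⊕ β)).disjSum T)
  rw [map_refl] at h1
  have h2 : ((univ : Finset (P ⊕ β)).disjSum S).map f =
      ((univ : Finset P).disjSum S).disjSum (univ : Finset β) := by
    ext x
    rcases x with (x | x) | x
    · simp only [mem_map, inl_mem_disjSum, mem_univ, iff_true]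
      exact ⟨.inl (.inl x), by simp, rfl⟩
    · simp only [mem_map, inl_mem_disjSum, inr_mem_disjSum]
      constructor
      · rintro ⟨(y | y) | y, hy, hyx⟩
        · simp [f] at hyx
        · simp [f] at hyx
        · simp [f] at hyx
          rw [← hyx]
          simpa using hy
      · intro hx
        exact ⟨.inr x, by simpa using hx, rfl⟩
    · simp only [mem_map, inr_mem_disjSum, mem_univ, iff_true]
      exact ⟨.inl (.inr x), by simp, rfl⟩
  rw [h2, pm_merge, hw] at h1
  exact h1.symm

end

end L5helper67.NC
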