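import Pool.Agent.L5helper96.Cub.Net

/-!
Padding: one more row and column.
-/

namespace L5helper67.NC

open Finset MvPolynomial L5lead.NC

set_option linter.unusedSectionVars false

variable {ι α β : Type} [Fintype α] [Fintype β] [DecidableEq α] [DecidableEq β]

/-- the matrix with one more row and column -/
noncomputable def padMat {P Q : Type} (N : P ⊕ α → Q ⊕ β → MvPolynomial ι ℂ) :
    Option P ⊕ α → Option Q ⊕ β → MvPolynomial ι ℂ
  | .inl none, .inl none => 1
  | .inl none, .inl (some _) => 0
  | .inl none, .inr _ => 0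
  | .inl (some _), .inl none => 0
  | .inr _, .inl none => 0
  | .inl (some p), .inl (some q) => N (.inl p) (.inl q)
  | .inl (some p), .inr b => N (.inl p) (.inr b)
  | .inr a, .inl (some q) => N (.inr a) (.inl q)
  | .inr a, .inr b => N (.inr a) (.inr b)

/-- the embedding of the old rows or columns -/
def padEmb (P A : Type) : P ⊕ A ↪ Option P ⊕ A where
  toFun := Sum.map some id
  inj' := by
    rintro (x | x) (y | y) h <;> simp_all

theorem disjSum_eq_insert {P A : Type} [Fintype P] [DecidableEq P] [DecidableEq A]
    (S : Finset A) : ((univ : Finset (Option P)).disjSum S) =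
      insert (Sum.inl none) (((univ : Finset P).disjSum S).map (padEmb P A)) := by
  ext x
  rcases x with (_ | p) | a
  · simp
  · simp only [inl_mem_disjSum, mem_univ, mem_insert, mem_map, true_iff]
    exact Or.inr ⟨.inl p, by simp, rfl⟩
  · simp only [inr_mem_disjSum, mem_insert, mem_map, reduceCtorEq, false_or]
    constructor
    · intro h
      exact ⟨.inr a, by simpa using h, rfl⟩
    · rintro ⟨(y | y), hy, hyx⟩
      · simp [padEmb] at hyx
      · simp [padEmb] at hyx
        rw [← hyx]
        simpa using hy

theorem none_notMem_map {P A : Type} [Fintype P] [DecidableEq P] [DecidableEq A]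
    (S : Finset (P ⊕ A)) : (Sum.inl none : Option P ⊕ A) ∉ S.map (padEmb P A) := by
  rw [mem_map]
  rintro ⟨(y | y), _, hyx⟩ <;> simp [padEmb] at hyx

/-- one more row and column -/
theorem _root_.L5lead.NC.Rep.pad {p : ℕ} {w : Finset α → Finset β → MvPolynomial ι ℂ}
    (h : Rep α β p w) : Rep α β (p + 1) w := by
  obtain ⟨P, Q, fP, fQ, dP, dQ, hP, hQ, N, hN, hw⟩ := h
  refine ⟨Option P, Option Q, inferInstance, inferInstance, inferInstance, inferInstance,
    by rw [Fintype.card_option, hP], by rw [Fintype.card_option, hQ], padMat N, ?_, ?_⟩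
  · intro x y
    have h0 : (0 : MvPolynomial ι ℂ).totalDegree ≤ 1 := by
      rw [totalDegree_zero]; omega
    have h1 : (1 : MvPolynomial ι ℂ).totalDegree ≤ 1 := by
      rw [totalDegree_one]; omega
    rcases x with (_ | x) | x <;> rcases y with (_ | y) | y
    · exact h1
    · exact h0
    · exact h0
    · exact h0
    · exact hN _ _
    · exact hN _ _
    · exact h0
    · exact hN _ _
    · exact hN _ _
  · intro S T
    rw [disjSum_eq_insert S, disjSum_eq_insert T, pm_insert _ _ _ _ (none_notMem_map _),
      sum_insert (none_notMem_map _), erase_insert (none_notMem_map _), pm_map,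
      sum_eq_zero, add_zero]
    · change 1 * _ = _
      rw [one_mul, ← hw]
      refine pm_congr _ _ _ _ ?_
      rintro (x | x) _ (y | y) _ <;> rfl
    · intro x hx
      rw [mem_map] at hx
      obtain ⟨(y | y), _, rfl⟩ := hx
      · change 0 * _ = _
        rw [zero_mul]
      · change 0 * _ = _
        rw [zero_mul]

theorem Rep.pad_le {p p' : ℕ} {w : Finset α → Finset β → MvPolynomial ι ℂ}
    (h : Rep α β p w) (hp : p ≤ p') : Rep α β p' w := by
  obtain ⟨d, rfl⟩ := Nat.exists_eq_add_of_le hp
  clear hp
  induction d with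
  | zero => exact h
  | succ d ih => exact ih.pad

theorem Net.mono {V : Type} {g : (V → Bool) → ℂ} {c c' : ℕ} (h : L5helper96.Cub.Net V g c)
    (hc : c ≤ c') : L5helper96.Cub.Net V g c' := by
  intro ι α β _ _ _ _ e p w hw
  obtain ⟨K, hK, h1⟩ := h ι α β e p w hw
  exact ⟨K, hK, Rep.pad_le h1 (by omega)⟩

end L5helper67.NC
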