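import Mathlib

/-!
Multiset rewriting: the powers `θ ^ i`, `i < 2 ^ n`, are obtained from few powers `θ ^ (2 ^ f)`
with `O(2 ^ n)` additions with carry.
-/

namespace L5helper67.NC

open Finset

/-- The rules of the calculus; `Q M c` is monotone in the cost `c`. -/
structure Rules (Q : Multiset ℂ → ℕ → Prop) (C₀ : ℕ) : Prop where
  mono : ∀ M c c', Q M c → c ≤ c' → Q M c'
  split : ∀ a b M c, Q (a ::ₘ b ::ₘ M) c → Q ((a * b) ::ₘ M) c
  one : ∀ M c, Q M c → Q (1 ::ₘ M) c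
  fa : ∀ w M c, w ≠ 0 → Q (w ::ₘ w ^ 2 ::ₘ M) c → Q (w ::ₘ w ::ₘ w ::ₘ M) (c + C₀)
  ha : ∀ w M c, w ≠ 0 → Q (w ::ₘ w ^ 2 ::ₘ M) c → Q (w ::ₘ w ::ₘ M) (c + C₀)

variable {Q : Multiset ℂ → ℕ → Prop} {C₀ : ℕ}

/-- the powers `u ^ (2 ^ e)`, `e < k` -/
noncomputable def pw (u : ℂ) (k : ℕ) : Multiset ℂ := (Multiset.range k).map fun e => u ^ (2 ^ e)

theorem pw_zero (u : ℂ) : pw u 0 = 0 := rfl

theorem pw_succ (u : ℂ) (k : ℕ) : pw u (k + 1) = u ::ₘ pw (u ^ 2) k := by
  unfold pw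
  induction k with
  | zero => simp
  | succ k ih =>
    rw [Multiset.range_succ, Multiset.map_cons, ih, Multiset.cons_swap, Multiset.range_succ,
      Multiset.map_cons, ← pow_mul, pow_succ' 2 k]

theorem ripple_carry (h : Rules Q C₀) (k : ℕ) : ∀ (u : ℂ) (M : Multiset ℂ) (c : ℕ), u ≠ 0 →
    Q (pw u (k + 1) + M) c → Q (u ::ₘ (pw u k + pw u k) + M) (c + C₀ * k) := by
  induction k with
  | zero =>
    intro u M c _ hQ
    rw [pw_succ, pw_zero] at hQ
    rw [pw_zero, Nat.mul_zero, Nat.add_zero, add_zero]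
    exact hQ
  | succ k ih =>
    intro u M c hu hQ
    have hu2 : u ^ 2 ≠ 0 := pow_ne_zero 2 hu
    rw [pw_succ u (k + 1), Multiset.cons_add, ← Multiset.add_cons] at hQ
    have h1 := ih (u ^ 2) (u ::ₘ M) c hu2 hQ
    rw [Multiset.cons_add, Multiset.add_cons, Multiset.cons_swap] at h1
    have h2 := h.fa u _ _ hu h1
    have h3 : u ::ₘ u ::ₘ u ::ₘ (pw (u ^ 2) k + pw (u ^ 2) k + M) =
        u ::ₘ (pw u (k + 1) + pw u (k + 1)) + M := by
      rw [pw_succ u k]
      simp only [Multiset.cons_add, Multiset.add_cons]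
    rw [h3] at h2
    exact h.mono _ _ _ h2 (by rw [Nat.mul_succ]; omega)

theorem ripple (h : Rules Q C₀) (k : ℕ) (u : ℂ) (M : Multiset ℂ) (c : ℕ) (hu : u ≠ 0)
    (hQ : Q (pw u (k + 2) + M) c) :
    Q (pw u (k + 1) + pw u (k + 1) + M) (c + C₀ * (k + 1)) := by
  have hu2 : u ^ 2 ≠ 0 := pow_ne_zero 2 hu
  rw [pw_succ u (k + 1), Multiset.cons_add, ← Multiset.add_cons] at hQ
  have h1 := ripple_carry h k (u ^ 2) (u ::ₘ M) c hu2 hQ
  rw [Multiset.cons_add, Multiset.add_cons, Multiset.cons_swap] at h1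
  have h2 := h.ha u _ _ hu h1
  have h3 : u ::ₘ u ::ₘ (pw (u ^ 2) k + pw (u ^ 2) k + M) =
      pw u (k + 1) + pw u (k + 1) + M := by
    rw [pw_succ u k]
    simp only [Multiset.cons_add, Multiset.add_cons]
  rw [h3] at h2
  exact h.mono _ _ _ h2 (by rw [Nat.mul_succ]; omega)

theorem split_pw (h : Rules Q C₀) (k : ℕ) : ∀ (u v : ℂ) (M : Multiset ℂ) (c : ℕ),
    Q (pw u k + pw v k + M) c → Q (pw (u * v) k + M) c := by
  induction k with
  | zero =>
    intro u v M c hQ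
    rw [pw_zero, pw_zero, add_zero] at hQ
    exact hQ
  | succ k ih =>
    intro u v M c hQ
    rw [pw_succ, pw_succ] at hQ
    have h1 : u ::ₘ pw (u ^ 2) k + v ::ₘ pw (v ^ 2) k + M =
        u ::ₘ v ::ₘ (pw (u ^ 2) k + pw (v ^ 2) k + M) := by
      simp only [Multiset.cons_add, Multiset.add_cons, Multiset.cons_swap]
    rw [h1] at hQ
    have h2 := h.split _ _ _ _ hQ
    have h3 : (u * v) ::ₘ (pw (u ^ 2) k + pw (v ^ 2) k + M) =
        pw (u ^ 2) k + pw (v ^ 2) k + ((u * v) ::ₘ M) := by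
      rw [Multiset.add_cons]
    rw [h3] at h2
    have h4 := ih _ _ _ _ h2
    rw [pw_succ, mul_pow, Multiset.cons_add]
    rwa [Multiset.add_cons] at h4

theorem pair_step (h : Rules Q C₀) (k : ℕ) (u v : ℂ) (M : Multiset ℂ) (c : ℕ) (hu : u ≠ 0)
    (hQ : Q (pw u (k + 2) + pw v (k + 1) + M) c) :
    Q (pw u (k + 1) + pw (u * v) (k + 1) + M) (c + C₀ * (k + 1)) := by
  rw [add_assoc] at hQ
  have h1 := ripple h k u _ c hu hQ
  have h2 : pw u (k + 1) + pw u (k + 1) + (pw v (k + 1) + M) =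
      pw u (k + 1) + pw v (k + 1) + (pw u (k + 1) + M) := by
    abel
  rw [h2] at h1
  have h3 := split_pw h _ _ _ _ _ h1
  have h4 : pw (u * v) (k + 1) + (pw u (k + 1) + M) =
      pw u (k + 1) + pw (u * v) (k + 1) + M := by abel
  rwa [h4] at h3

theorem level_step (h : Rules Q C₀) (k : ℕ) (x v : ℂ) (hx : x ≠ 0) (m : ℕ) :
    ∀ (M : Multiset ℂ) (c : ℕ),
    Q (∑ i ∈ range m, pw (x ^ i) (k + 2) + m • pw v (k + 1) + M) c →
    Q (∑ i ∈ range m, (pw (x ^ i) (k + 1) + pw (x ^ i * v) (k + 1)) + M)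
      (c + C₀ * (m * (k + 1))) := by
  induction m with
  | zero =>
    intro M c hQ
    simpa using hQ
  | succ m ih =>
    intro M c hQ
    have h1 : ∑ i ∈ range (m + 1), pw (x ^ i) (k + 2) + (m + 1) • pw v (k + 1) + M =
        ∑ i ∈ range m, pw (x ^ i) (k + 2) + m • pw v (k + 1) +
          (pw (x ^ m) (k + 2) + pw v (k + 1) + M) := by
      rw [sum_range_succ, add_smul, one_smul]
      abel
    rw [h1] at hQ
    have h2 := ih _ _ hQ
    have h3 : ∑ i ∈ range m, (pw (x ^ i) (k + 1) + pw (x ^ i * v) (k + 1)) +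
        (pw (x ^ m) (k + 2) + pw v (k + 1) + M) =
        pw (x ^ m) (k + 2) + pw v (k + 1) +
          (∑ i ∈ range m, (pw (x ^ i) (k + 1) + pw (x ^ i * v) (k + 1)) + M) := by
      abel
    rw [h3] at h2
    have h4 := pair_step h k _ _ _ _ (pow_ne_zero m hx) h2
    have h5 : pw (x ^ m) (k + 1) + pw (x ^ m * v) (k + 1) +
        (∑ i ∈ range m, (pw (x ^ i) (k + 1) + pw (x ^ i * v) (k + 1)) + M) =
        ∑ i ∈ range (m + 1), (pw (x ^ i) (k + 1) + pw (x ^ i * v) (k + 1)) + M := by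
      rw [sum_range_succ]
      abel
    rw [h5] at h4
    refine h.mono _ _ _ h4 (le_of_eq ?_)
    ring

theorem sum_range_pairs (f : ℕ → Multiset ℂ) (m : ℕ) :
    ∑ i ∈ range (2 * m), f i = ∑ i ∈ range m, (f (2 * i) + f (2 * i + 1)) := by
  induction m with
  | zero => simp
  | succ m ih =>
    rw [Nat.mul_succ, sum_range_succ, sum_range_succ, ih, sum_range_succ]
    abel

/-- exponents of the pure powers -/
def pureE : ℕ → ℕ → Multiset ℕ
  | 0, _ => 0
  | n + 1, k => (pureE n (k + 1)).map (· + 1) + (2 ^ n) • Multiset.range (k + 1)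

/-- number of additions -/
def cst : ℕ → ℕ → ℕ
  | 0, _ => 0
  | n + 1, k => cst n (k + 1) + 2 ^ n * (k + 1)

theorem cst_le (n : ℕ) : ∀ k, cst n k ≤ 2 ^ n * (k + 2) := by
  induction n with
  | zero => intro k; simp [cst]
  | succ n ih =>
    intro k
    rw [cst]
    have := ih (k + 1)
    calc cst n (k + 1) + 2 ^ n * (k + 1) ≤ 2 ^ n * (k + 1 + 2) + 2 ^ n * (k + 1) := by omega
      _ = 2 ^ (n + 1) * (k + 2) := by ring

theorem card_pureE (n : ℕ) : ∀ k, (pureE n k).card = cst n k := by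
  induction n with
  | zero => intro k; rfl
  | succ n ih =>
    intro k
    rw [pureE, cst, Multiset.card_add, Multiset.card_map, ih, Multiset.card_nsmul,
      Multiset.card_range]

theorem sum_pow_range (k : ℕ) : ((Multiset.range k).map fun e => 2 ^ e).sum + 1 = 2 ^ k := by
  induction k with
  | zero => simp
  | succ k ih =>
    rw [Multiset.range_succ, Multiset.map_cons, Multiset.sum_cons, add_assoc, ih, pow_succ]
    ring

theorem sum_pureE (n : ℕ) : ∀ k, ((pureE n k).map fun f => 2 ^ f).sum + 2 ^ (n + k) ≤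
    2 ^ (2 * n + k) := by
  induction n with
  | zero => intro k; simp [pureE]
  | succ n ih =>
    intro k
    rw [pureE, Multiset.map_add, Multiset.sum_add, Multiset.map_map, Multiset.map_nsmul,
      Multiset.sum_nsmul, smul_eq_mul]
    have h1 : ((fun f => 2 ^ f) ∘ (· + 1) : ℕ → ℕ) = fun f => 2 * 2 ^ f := by
      funext f
      simp [pow_succ, mul_comm]
    have h8 : (Multiset.map (fun f => 2 * 2 ^ f) (pureE n (k + 1))).sum =
        2 * (Multiset.map (fun f => 2 ^ f) (pureE n (k + 1))).sum := Multiset.sum_map_mul_left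
    rw [h1, h8]
    have h2 := ih (k + 1)
    have h3 := sum_pow_range (k + 1)
    have h4 : 2 ^ n * ((Multiset.range (k + 1)).map fun e => 2 ^ e).sum + 2 ^ n =
        2 ^ (n + (k + 1)) := by
      rw [pow_add, ← h3]
      ring
    have h5 : 2 ^ (n + 1 + k) = 2 ^ (n + (k + 1)) := by
      congr 1
      ring
    have h6 : 2 ^ (2 * (n + 1) + k) = 2 * 2 ^ (2 * n + (k + 1)) := by
      rw [← pow_succ']
      congr 1
      ring
    rw [h5, h6]
    have h7 : 0 < 2 ^ n := by positivity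
    omega

theorem pw_eq_map (θ : ℂ) (k : ℕ) : pw θ k = (Multiset.range k).map fun f => θ ^ (2 ^ f) := rfl

/-- the tree -/
theorem tree (h : Rules Q C₀) (n : ℕ) : ∀ (k : ℕ) (θ : ℂ) (M : Multiset ℂ) (c : ℕ), θ ≠ 0 →
    Q ((pureE n k).map (fun f => θ ^ (2 ^ f)) + M) c →
    Q (∑ i ∈ range (2 ^ n), pw (θ ^ i) (k + 1) + M) (c + C₀ * cst n k) := by
  induction n with
  | zero =>
    intro k θ M c hθ hQ
    rw [pow_zero, sum_range_one, pow_zero]
    have h1 : ∀ j, Q (pw 1 j + M) c := by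
      intro j
      induction j with
      | zero =>
        rw [pw_zero, zero_add]
        simpa [pureE] using hQ
      | succ j ih =>
        rw [pw_succ, one_pow, Multiset.cons_add]
        exact h.one _ _ ih
    exact h.mono _ _ _ (h1 (k + 1)) (Nat.le_add_right _ _)
  | succ n ih =>
    intro k θ M c hθ hQ
    have h1 : (pureE (n + 1) k).map (fun f => θ ^ (2 ^ f)) + M =
        (pureE n (k + 1)).map (fun f => (θ ^ 2) ^ (2 ^ f)) +
          ((2 ^ n) • pw θ (k + 1) + M) := by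
      rw [pureE, Multiset.map_add, Multiset.map_map, Multiset.map_nsmul, ← pw_eq_map, add_assoc]
      congr 1
      refine Multiset.map_congr rfl fun f _ => ?_
      rw [Function.comp_apply, ← pow_mul, pow_succ' 2 f]
    rw [h1] at hQ
    have h2 := ih (k + 1) (θ ^ 2) _ c (pow_ne_zero 2 hθ) hQ
    rw [← add_assoc] at h2
    have h3 := level_step h k (θ ^ 2) θ (pow_ne_zero 2 hθ) (2 ^ n) M _ h2
    have h4 : ∑ i ∈ range (2 ^ n), (pw ((θ ^ 2) ^ i) (k + 1) + pw ((θ ^ 2) ^ i * θ) (k + 1)) =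
        ∑ i ∈ range (2 ^ (n + 1)), pw (θ ^ i) (k + 1) := by
      rw [pow_succ' 2 n, sum_range_pairs]
      refine sum_congr rfl fun i _ => ?_
      rw [← pow_mul, ← pow_succ]
    rw [h4] at h3
    refine h.mono _ _ _ h3 (le_of_eq ?_)
    rw [cst]
    ring

/-- pigeonhole -/
theorem exists_triple (E : Multiset ℕ) (G : ℕ) (h1 : (E.map fun f => 2 ^ f).sum < 2 ^ G)
    (h2 : 2 * G < E.card) : ∃ f, 3 ≤ E.count f := by
  by_contra hc
  push Not at hc
  have h3 : ∀ f ∈ E.toFinset, f ∈ range G := by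
    intro f hf
    rw [Multiset.mem_toFinset] at hf
    rw [mem_range]
    by_contra hlt
    have h4 : 2 ^ f ≤ (E.map fun f => 2 ^ f).sum :=
      Multiset.le_sum_of_mem (Multiset.mem_map_of_mem _ hf)
    have h5 : 2 ^ G ≤ 2 ^ f := Nat.pow_le_pow_right (by norm_num) (by omega)
    omega
  have h4 : E.card ≤ 2 * G := by
    rw [← Multiset.toFinset_sum_count_eq]
    calc ∑ f ∈ E.toFinset, E.count f ≤ ∑ f ∈ range G, E.count f :=
          sum_le_sum_of_subset h3
      _ ≤ ∑ f ∈ range G, 2 := sum_le_sum fun f _ => by have := hc f; omega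
      _ = 2 * G := by rw [sum_const, card_range, smul_eq_mul, mul_comm]
  omega

/-- reduction of the pure powers -/
theorem reduce (h : Rules Q C₀) (θ : ℂ) (hθ : θ ≠ 0) (G : ℕ) (M : Multiset ℂ) (c : ℕ)
    (hend : ∀ E : Multiset ℕ, E.card ≤ 2 * G → Q (E.map (fun f => θ ^ (2 ^ f)) + M) c)
    (n : ℕ) : ∀ E : Multiset ℕ, E.card = n → (E.map fun f => 2 ^ f).sum < 2 ^ G →
      Q (E.map (fun f => θ ^ (2 ^ f)) + M) (c + C₀ * n) := by
  induction n with
  | zero =>
    intro E hE _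
    rw [Nat.mul_zero, Nat.add_zero]
    exact hend E (by omega)
  | succ n ih =>
    intro E hE hs
    by_cases hG : E.card ≤ 2 * G
    · exact h.mono _ _ _ (hend E hG) (Nat.le_add_right _ _)
    · obtain ⟨f, hf⟩ := exists_triple E G hs (by omega)
      obtain ⟨E₀, hE₀⟩ : ∃ E₀, E = f ::ₘ f ::ₘ f ::ₘ E₀ := by
        rw [Multiset.le_count_iff_replicate_le] at hf
        obtain ⟨E₀, hE₀⟩ := Multiset.le_iff_exists_add.1 hf
        refine ⟨E₀, ?_⟩
        rw [hE₀]
        simp [Multiset.replicate_succ]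
      subst hE₀
      have h1 := ih (f ::ₘ (f + 1) ::ₘ E₀) (by
        simp only [Multiset.card_cons] at hE ⊢
        omega) (by
        simp only [Multiset.map_cons, Multiset.sum_cons] at hs ⊢
        rw [pow_succ]
        omega)
      simp only [Multiset.map_cons, Multiset.cons_add] at h1 ⊢
      rw [pow_succ 2 f, pow_mul] at h1
      have h2 := h.fa _ _ _ (pow_ne_zero _ hθ) h1
      exact h.mono _ _ _ h2 (by rw [Nat.mul_succ]; omega)

/-- **The powers `θ ^ i`, `i < 2 ^ n`, in linear cost.** -/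
theorem powers (h : Rules Q C₀) (θ : ℂ) (hθ : θ ≠ 0) (n : ℕ) (M : Multiset ℂ) (c : ℕ)
    (hend : ∀ E : Multiset ℕ, E.card ≤ 4 * n → Q (E.map (fun f => θ ^ (2 ^ f)) + M) c) :
    Q ((Multiset.range (2 ^ n)).map (fun i => θ ^ i) + M) (c + C₀ * (4 * 2 ^ n)) := by
  have h1 := sum_pureE n 0
  have h2 := card_pureE n 0
  have h3 := cst_le n 0
  have h4 := reduce h θ hθ (2 * n) M c (fun E hE => hend E (by omega)) _ (pureE n 0) rfl (by
    have : 0 < 2 ^ (n + 0) := by positivity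
    simp only [Nat.add_zero] at h1 this ⊢
    omega)
  have h5 := tree h n 0 θ M _ hθ h4
  have h6 : ∑ i ∈ range (2 ^ n), pw (θ ^ i) (0 + 1) =
      (Multiset.range (2 ^ n)).map (fun i => θ ^ i) := by
    have h7 : ∀ m : ℕ, ∑ i ∈ range m, pw (θ ^ i) (0 + 1) =
        (Multiset.range m).map (fun i => θ ^ i) := by
      intro m
      induction m with
      | zero => simp
      | succ m ih =>
        rw [sum_range_succ, ih, Multiset.range_succ, Multiset.map_cons, pw_succ, pw_zero]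
        rw [Multiset.add_cons, add_zero]
    exact h7 _
  rw [h6] at h5
  refine h.mono _ _ _ h5 ?_
  rw [h2]
  have h8 : C₀ * cst n 0 ≤ C₀ * (2 ^ n * (0 + 2)) := Nat.mul_le_mul_left _ h3
  calc c + C₀ * cst n 0 + C₀ * cst n 0 ≤ c + C₀ * (2 ^ n * (0 + 2)) + C₀ * (2 ^ n * (0 + 2)) := by
        omega
    _ = c + C₀ * (4 * 2 ^ n) := by ring

/-- two families of powers -/
theorem powers_two (h : Rules Q C₀) (θ θ' : ℂ) (hθ : θ ≠ 0) (hθ' : θ' ≠ 0) (n n' : ℕ) (c : ℕ)
    (hend : ∀ M : Multiset ℂ, (∀ x ∈ M, x ≠ 0) → M.card ≤ 4 * n + 4 * n' → Q M c) :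
    Q ((Multiset.range (2 ^ n)).map (fun i => θ ^ i) +
      (Multiset.range (2 ^ n')).map (fun i => θ' ^ i)) (c + C₀ * (4 * (2 ^ n + 2 ^ n'))) := by
  have h1 : ∀ E : Multiset ℕ, E.card ≤ 4 * n →
      Q ((Multiset.range (2 ^ n')).map (fun i => θ' ^ i) + E.map (fun f => θ ^ (2 ^ f)))
        (c + C₀ * (4 * 2 ^ n')) := by
    intro E hE
    refine powers h θ' hθ' n' _ c fun E' hE' => hend _ ?_ ?_
    · intro x hx
      rw [Multiset.mem_add] at hx
      rcases hx with hx | hx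
      · obtain ⟨f, _, rfl⟩ := Multiset.mem_map.1 hx
        exact pow_ne_zero _ hθ'
      · obtain ⟨f, _, rfl⟩ := Multiset.mem_map.1 hx
        exact pow_ne_zero _ hθ
    · rw [Multiset.card_add, Multiset.card_map, Multiset.card_map]
      omega
  have h2 := powers h θ hθ n ((Multiset.range (2 ^ n')).map (fun i => θ' ^ i)) _
    (fun E hE => by
      have := h1 E hE
      rwa [add_comm] at this)
  refine h.mono _ _ _ h2 (le_of_eq ?_)
  ring

end L5helper67.NC
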