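import Pool.Agent.L5helper96.Cub.Net
import Pool.Agent.L5helper67.NC.Rewrite
import Pool.Agent.L5helper67.NC.Pad

/-!
CUBIC: the calculus of nets satisfies the rules of the multiset rewriting.
-/

namespace L5helper67.NC

open Finset MvPolynomial L5lead.NC L5helper34.NC L5helper96.Cub

set_option linter.unusedSectionVars false

/-- the full adder -/
def FaStmt : Prop := Net (Fin 5) (fun x =>
    if (x 0).toNat + (x 1).toNat + (x 2).toNat = (x 3).toNat + 2 * (x 4).toNat then 1 else 0) 24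

/-- the half adder -/
def HaStmt : Prop := Net (Fin 4) (fun x =>
    if (x 0).toNat + (x 1).toNat = (x 2).toNat + 2 * (x 3).toNat then 1 else 0) 20

section

variable (F : ℂ → ℂ)

/-- nets can be multiplied by `F (∏ θ v)`, the product over the occupied ports -/
def NF (V : Type) [Fintype V] (θ : V → ℂ) (c : ℕ) : Prop :=
  Net V (fun x => F (∏ v, if x v then θ v else 1)) c

variable {F}

theorem NF.equiv {V V' : Type} [Fintype V] [Fintype V'] {θ : V → ℂ} {θ' : V' → ℂ} {c : ℕ}
    (h : NF F V θ c) (e : V ≃ V') (he : ∀ v, θ' (e v) = θ v) : NF F V' θ' c := by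
  refine (Net.map e h).congr (fun x => ?_) rfl
  congr 1
  rw [← Equiv.prod_comp e]
  refine prod_congr rfl fun v _ => ?_
  rw [he]
  rfl

theorem NF.split {V : Type} [Fintype V] {θ : V → ℂ} {a b : ℂ} {c : ℕ}
    (h : NF F (Option (Option V)) (fun o => o.elim a fun o => o.elim b θ) c) :
    NF F (Option V) (fun o => o.elim (a * b) θ) c := by
  refine (Net.map (fun o : Option (Option V) => o.elim none id) h).congr (fun x => ?_) rfl
  congr 1
  simp only [Fintype.prod_option, Function.comp_apply, Option.elim_none, Option.elim_some, id]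
  rw [← mul_assoc]
  congr 1
  cases x none <;> simp

theorem NF.one {V : Type} [Fintype V] {θ : V → ℂ} {c : ℕ} (h : NF F V θ c) :
    NF F (Option V) (fun o => o.elim 1 θ) c := by
  refine (Net.map (fun v : V => some v) h).congr (fun x => ?_) rfl
  congr 1
  simp only [Fintype.prod_option, Function.comp_apply, Option.elim_none, Option.elim_some,
    ite_self, one_mul]

theorem NF.fa (hG : GateStmt) (hfa : FaStmt) {V : Type} [Fintype V] {θ : V → ℂ} {w : ℂ} {c : ℕ}
    (h : NF F (Option (Option V)) (fun o => o.elim w fun o => o.elim (w ^ 2) θ) c) :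
    NF F (Option (Option (Option V)))
      (fun o => o.elim w fun o => o.elim w fun o => o.elim w θ) (c + 28) := by
  have h1 := Net.map (fun o : Option (Option V) => o.elim (none : Option (Option
    (Option (Option (Option V))))) fun o => o.elim (some none) fun v =>
      some (some (some (some (some v))))) h
  have h2 := Net.map (![some (some none), some (some (some none)),
    some (some (some (some none))), none, some none] : Fin 5 → Option (Option
    (Option (Option (Option V))))) hfa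
  have h4 := Net.hide hG (Net.hide hG (Net.mul h2 h1))
  refine h4.congr (fun x => ?_) (by ring)
  simp only [Fintype.prod_option, Function.comp_apply, Option.elim_none, Option.elim_some,
    L5helper96.Cub.cons,
    Matrix.cons_val]
  rcases Bool.eq_false_or_eq_true (x none) with hx1 | hx1 <;>
    rcases Bool.eq_false_or_eq_true (x (some none)) with hx2 | hx2 <;>
    rcases Bool.eq_false_or_eq_true (x (some (some none))) with hx3 | hx3 <;>
    simp [hx1, hx2, hx3, pow_two, mul_assoc]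

theorem NF.ha (hG : GateStmt) (hha : HaStmt) {V : Type} [Fintype V] {θ : V → ℂ} {w : ℂ} {c : ℕ}
    (h : NF F (Option (Option V)) (fun o => o.elim w fun o => o.elim (w ^ 2) θ) c) :
    NF F (Option (Option V)) (fun o => o.elim w fun o => o.elim w θ) (c + 24) := by
  have h1 := Net.map (fun o : Option (Option V) => o.elim (none : Option (Option
    (Option (Option V)))) fun o => o.elim (some none) fun v =>
      some (some (some (some v)))) h
  have h2 := Net.map (![some (some none), some (some (some none)), none, some none] :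
    Fin 4 → Option (Option (Option (Option V)))) hha
  have h4 := Net.hide hG (Net.hide hG (Net.mul h2 h1))
  refine h4.congr (fun x => ?_) (by ring)
  simp only [Fintype.prod_option, Function.comp_apply, Option.elim_none, Option.elim_some,
    L5helper96.Cub.cons,
    Matrix.cons_val]
  rcases Bool.eq_false_or_eq_true (x none) with hx1 | hx1 <;>
    rcases Bool.eq_false_or_eq_true (x (some none)) with hx2 | hx2 <;>
    simp [hx1, hx2, pow_two, mul_assoc]

/-! ### multisets -/

/-- two elements in front -/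
noncomputable def cons2 (a b : ℂ) (M : Multiset ℂ) : Option (Option M) ≃ (a ::ₘ b ::ₘ M) :=
  (Equiv.optionCongr Multiset.consEquiv.symm).trans Multiset.consEquiv.symm

/-- three elements in front -/
noncomputable def cons3 (a b d : ℂ) (M : Multiset ℂ) :
    Option (Option (Option M)) ≃ (a ::ₘ b ::ₘ d ::ₘ M) :=
  (Equiv.optionCongr (cons2 b d M)).trans Multiset.consEquiv.symm

theorem cons1_val (a : ℂ) (M : Multiset ℂ) (o : Option M) :
    ((Multiset.consEquiv.symm o : (a ::ₘ M : Multiset ℂ)) : ℂ) =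
      o.elim a fun v => (v : ℂ) := by
  rcases o with _ | v <;> rfl

theorem cons2_val (a b : ℂ) (M : Multiset ℂ) (o : Option (Option M)) :
    ((cons2 a b M o : (a ::ₘ b ::ₘ M : Multiset ℂ)) : ℂ) =
      o.elim a fun o => o.elim b fun v => (v : ℂ) := by
  rcases o with _ | _ | v <;> rfl

theorem cons3_val (a b d : ℂ) (M : Multiset ℂ) (o : Option (Option (Option M))) :
    ((cons3 a b d M o : (a ::ₘ b ::ₘ d ::ₘ M : Multiset ℂ)) : ℂ) =
      o.elim a fun o => o.elim b fun o => o.elim d fun v => (v : ℂ) := by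
  rcases o with _ | _ | _ | v <;> rfl

variable (F) in
/-- the predicate of the rewriting system -/
def NQ (M : Multiset ℂ) (c : ℕ) : Prop := NF F M (fun v => (v : ℂ)) c

theorem NF.mono {V : Type} [Fintype V] {θ : V → ℂ} {c c' : ℕ} (h : NF F V θ c) (hc : c ≤ c') :
    NF F V θ c' := Net.mono h hc

theorem NF.equiv_symm {V V' : Type} [Fintype V] [Fintype V'] {θ : V → ℂ} {θ' : V' → ℂ} {c : ℕ}
    (h : NF F V' θ' c) (e : V ≃ V') (he : ∀ v, θ' (e v) = θ v) : NF F V θ c :=
  h.equiv e.symm fun v => by rw [← he, Equiv.apply_symm_apply]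

/-- **The calculus satisfies the rules.** -/
theorem rules (hG : GateStmt) (hfa : FaStmt) (hha : HaStmt) : Rules (NQ F) 28 where
  mono _ _ _ h hc := NF.mono h hc
  split a b M _ h := by
    have h1 := NF.equiv_symm h (cons2 a b M) (cons2_val a b M)
    exact (NF.split h1).equiv _ (cons1_val (a * b) M)
  one M _ h := (NF.one h).equiv _ (cons1_val 1 M)
  fa w M _ _ h := by
    have h1 := NF.equiv_symm h (cons2 w (w ^ 2) M) (cons2_val w (w ^ 2) M)
    exact (NF.fa hG hfa h1).equiv _ (cons3_val w w w M)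
  ha w M _ _ h := by
    have h1 := NF.equiv_symm h (cons2 w (w ^ 2) M) (cons2_val w (w ^ 2) M)
    exact ((NF.ha hG hha h1).equiv _ (cons2_val w w M)).mono (by omega)

/-- the elements of a finite type as a multiset -/
noncomputable def univEquiv (V : Type) [Fintype V] [DecidableEq V] :
    V ≃ (univ : Finset V).val :=
  Equiv.ofBijective (fun v => ⟨v, ⟨0, by
      rw [Multiset.count_pos]
      exact mem_univ v⟩⟩) (by
    constructor
    · intro v v' h
      exact congrArg Sigma.fst h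
    · rintro ⟨v, ⟨i, hi⟩⟩
      refine ⟨v, ?_⟩
      have h1 : (univ : Finset V).val.count v ≤ 1 :=
        Multiset.nodup_iff_count_le_one.1 (univ : Finset V).nodup v
      have h2 : i = 0 := by omega
      subst h2
      rfl)

theorem NQ.toNF {V : Type} [Fintype V] [DecidableEq V] {θ : V → ℂ} {c : ℕ}
    (h : NQ F ((univ : Finset V).val.map θ) c) : NF F V θ c := by
  refine NF.equiv_symm h ((univEquiv V).trans (Multiset.mapEquiv _ θ)) fun v => ?_
  rw [Equiv.trans_apply, Multiset.mapEquiv_apply]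
  rfl

end

/-- the sum over the colours -/
def MultiNetStmt : Prop :=
  ∀ (L : ℕ) {V : Type} [DecidableEq V] (F : Finset V)
    (θ : V → ℂ) (_ : ∀ v, θ v ≠ 0) (τ : ℂ) (_ : τ ≠ 0),
    Net V (fun x => ∑ z ∈ range (2 ^ L), τ ^ (z ^ 2) * (∏ v ∈ F, if x v then θ v else 1) ^ z)
      (2 * L * F.card + L ^ 2 + L)

theorem val_map_powers (a : ℂ) (m : ℕ) :
    Multiset.map (fun i : Fin m => a ^ (i : ℕ)) (Finset.univ : Finset (Fin m)).val =
      (Multiset.range m).map (fun i => a ^ i) := by
  have h1 : Multiset.map Fin.val (Finset.univ : Finset (Fin m)).val = Multiset.range m := by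
    have h2 := congrArg Finset.val (Fin.map_valEmbedding_univ (n := m))
    rw [Finset.map_val] at h2
    rw [← Finset.range_val, ← Nat.Iio_eq_range]
    exact h2
  rw [← h1, Multiset.map_map]
  rfl

/-- the function of the colours -/
noncomputable def FC (L : ℕ) (τ : ℂ) (W : ℂ) : ℂ := ∑ z ∈ range (2 ^ L), τ ^ (z ^ 2) * W ^ z

theorem NF_end (hM : @MultiNetStmt) (L : ℕ) (τ : ℂ) (hτ : τ ≠ 0) (V : Type) [Fintype V]
    (θ : V → ℂ) (hθ : ∀ v, θ v ≠ 0) :
    NF (FC L τ) V θ (2 * L * Fintype.card V + L ^ 2 + L) := by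
  classical
  exact hM L (univ : Finset V) θ hθ τ hτ

theorem cost_end (L k : ℕ) (hk : k ≤ 4 * L + 4 * (L + 1)) :
    2 * L * k + L ^ 2 + L ≤ 17 * L ^ 2 + 9 * L := by
  have h3 : 2 * L * k ≤ 2 * L * (4 * L + 4 * (L + 1)) := Nat.mul_le_mul_left _ hk
  have h4 : 2 * L * (4 * L + 4 * (L + 1)) = 16 * L ^ 2 + 8 * L := by ring
  omega

theorem NQ_end (hM : @MultiNetStmt) (L : ℕ) (τ : ℂ) (hτ : τ ≠ 0) (M : Multiset ℂ)
    (hM0 : ∀ x ∈ M, x ≠ 0) (hMc : M.card ≤ 4 * L + 4 * (L + 1)) :
    NQ (FC L τ) M (17 * L ^ 2 + 9 * L) := by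
  refine NF.mono (NF_end hM L τ hτ M (fun v => (v : ℂ)) (fun v => hM0 _ Multiset.coe_mem)) ?_
  refine cost_end L _ ?_
  rw [Multiset.card_coe]
  exact hMc

/-- the weights of the ports -/
noncomputable def wts (a c : ℂ) (L : ℕ) : Fin (2 ^ L) ⊕ Fin (2 ^ (L + 1)) → ℂ :=
  Sum.elim (fun i => a ^ (i : ℕ)) (fun j => c ^ (j : ℕ))

theorem wts_val (a c : ℂ) (L : ℕ) :
    (Multiset.range (2 ^ L)).map (fun i => a ^ i) +
      (Multiset.range (2 ^ (L + 1))).map (fun i => c ^ i) =
      (univ : Finset (Fin (2 ^ L) ⊕ Fin (2 ^ (L + 1)))).val.map (wts a c L) := by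
  rw [← val_map_powers, ← val_map_powers, ← Finset.univ_disjSum_univ, Finset.val_disjSum,
    Multiset.disjSum, Multiset.map_add, Multiset.map_map, Multiset.map_map]
  rfl

/-- the sum over the colours for `2 ^ L` and `2 ^ (L + 1)` ports, in linear cost -/
theorem colours (hG : GateStmt) (hfa : FaStmt) (hha : HaStmt) (hM : @MultiNetStmt) (L : ℕ)
    (a c τ : ℂ) (ha : a ≠ 0) (hc : c ≠ 0) (hτ : τ ≠ 0) :
    NF (FC L τ) (Fin (2 ^ L) ⊕ Fin (2 ^ (L + 1))) (wts a c L)
      (336 * 2 ^ L + (17 * L ^ 2 + 9 * L)) := by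
  have h := powers_two (rules (F := FC L τ) hG hfa hha) a c ha hc L (L + 1)
    (17 * L ^ 2 + 9 * L) (NQ_end hM L τ hτ)
  rw [wts_val] at h
  refine NF.mono (NQ.toNF h) (le_of_eq ?_)
  ring

/-- **The sum over the colours in linear cost.** -/
theorem multi3_of (hG : GateStmt) (hfa : FaStmt) (hha : HaStmt) (hM : @MultiNetStmt) (L : ℕ)
    {ι : Type} {p : ℕ}
    {w : Finset (Fin (2 * 2 ^ L)) → Finset (Fin (2 ^ L)) → MvPolynomial ι ℂ}
    (h : Rep (Fin (2 * 2 ^ L)) (Fin (2 ^ L)) p w) (a c τ : ℂ) (ha : a ≠ 0) (hc : c ≠ 0)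
    (hτ : τ ≠ 0) :
    ∃ K : ℂ, K ≠ 0 ∧ Rep (Fin (2 * 2 ^ L)) (Fin (2 ^ L))
      (p + (336 * 2 ^ L + (17 * L ^ 2 + 9 * L)))
      (fun S T => C K * C (∑ z ∈ range (2 ^ L), τ ^ (z ^ 2) *
        ((∏ i ∈ T, a ^ (i : ℕ)) * ∏ j ∈ S, c ^ (j : ℕ)) ^ z) * w S T) := by
  have e : 2 ^ (L + 1) = 2 * 2 ^ L := pow_succ' 2 L
  obtain ⟨K, hK, h1⟩ := colours hG hfa hha hM L a c τ ha hc hτ ι _ _
    (Sum.elim (fun i => Sum.inr i) (fun j => Sum.inl (Fin.cast e j))) p w h
  refine ⟨K, hK, ?_⟩
  have h2 : ∀ (S : Finset (Fin (2 * 2 ^ L))) (T : Finset (Fin (2 ^ L))),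
      (∏ v, if conf (Sum.elim (fun i => Sum.inr i) (fun j => Sum.inl (Fin.cast e j)) :
        Fin (2 ^ L) ⊕ Fin (2 ^ (L + 1)) → Fin (2 * 2 ^ L) ⊕ Fin (2 ^ L)) S T v
        then wts a c L v else 1) =
      (∏ i ∈ T, a ^ (i : ℕ)) * ∏ j ∈ S, c ^ (j : ℕ) := by
    intro S T
    rw [Fintype.prod_sum_type]
    congr 1
    · simp only [conf, Sum.elim_inl, Sum.elim_inr, wts, decide_eq_true_eq]
      rw [prod_ite_mem, univ_inter]
    · simp only [conf, Sum.elim_inl, Sum.elim_inr, wts, decide_eq_true_eq]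
      have h3 := Equiv.prod_comp (finCongr e)
        (fun j : Fin (2 * 2 ^ L) => if j ∈ S then c ^ (j : ℕ) else 1)
      rw [prod_ite_mem, univ_inter] at h3
      exact h3
  have h3 : (fun (S : Finset (Fin (2 * 2 ^ L))) (T : Finset (Fin (2 ^ L))) =>
      C K * C (∑ z ∈ range (2 ^ L), τ ^ (z ^ 2) *
        ((∏ i ∈ T, a ^ (i : ℕ)) * ∏ j ∈ S, c ^ (j : ℕ)) ^ z) * w S T) =
      (fun S T => C (K * FC L τ (∏ v, if conf (Sum.elim (fun i => Sum.inr i)
        (fun j => Sum.inl (Fin.cast e j)) :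
        Fin (2 ^ L) ⊕ Fin (2 ^ (L + 1)) → Fin (2 * 2 ^ L) ⊕ Fin (2 ^ L)) S T v
        then wts a c L v else 1)) * w S T) := by
    funext S T
    rw [h2, C_mul]
    rfl
  rw [h3]
  exact h1

end L5helper67.NC
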